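import Pool.Agent.Lib.MP_be0380_co.G.Defs

/-!
# (0.1) Straus, (0.2) pigeonhole, (0.3) lifts
-/

set_option autoImplicit false

open Finset

namespace Pool.MPbe0380.Gb

variable {p : ℕ} [Fact p.Prime]

theorem exp_th (a l : ZMod p) : Complex.exp ((th a l : ℂ) * Complex.I) = z a l := by
  have h := Complex.norm_mul_exp_arg_mul_I (z a l)
  rw [norm_z, Complex.ofReal_one, one_mul] at h
  exact h

theorem z_ne_zero (a l : ZMod p) : z a l ≠ 0 := by
  intro h
  have h2 := norm_z a l
  rw [h, norm_zero] at h2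
  exact zero_ne_one h2

theorem th_of_exp {a l : ZMod p} {θ : ℝ} (h : z a l = Complex.exp ((θ : ℂ) * Complex.I))
    (hθ : θ ∈ Set.Ioc (-Real.pi) Real.pi) : th a l = θ := by
  rw [th, h, Complex.exp_mul_I]
  exact Complex.arg_cos_add_sin_mul_I hθ

theorem th_add {a b l : ZMod p} (h : th a l + th b l ∈ Set.Ioc (-Real.pi) Real.pi) :
    th (a + b) l = th a l + th b l := by
  refine th_of_exp ?_ h
  push_cast
  rw [z_add, ← exp_th a, ← exp_th b, ← Complex.exp_add]
  congr 1
  ring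

theorem th_inj {a b l : ZMod p} (hl : l ≠ 0) (h : th a l = th b l) : a = b := by
  have h1 : z a l = z b l := by rw [← exp_th, ← exp_th, h]
  have h2 : a * l = b * l := ZMod.injective_stdAddChar h1
  exact mul_right_cancel₀ hl h2

theorem th_abs_lt_iff (a l : ZMod p) : |th a l| < Real.pi / 2 ↔ u a l < 1 := by
  rw [th, Complex.abs_arg_lt_pi_div_two_iff, u]
  constructor
  · rintro (h | h)
    · linarith
    · exact absurd h (z_ne_zero a l)
  · intro h
    left; linarith

/-- (0.1) Straus -/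
theorem straus (hp : 3 ≤ p) (A : Finset (ZMod p)) (hA : NUS A) (h2 : 2 ≤ A.card) (l : ZMod p)
    (hl : l ≠ 0) : ∃ a ∈ A, 1 ≤ u a l := by
  by_contra hcon
  push Not at hcon
  have hne : A.Nonempty := card_pos.mp (by omega)
  obtain ⟨a, ha, hmax⟩ := exists_max_image A (fun a => th a l) hne
  obtain ⟨c, hc, d, hd, hcd, hneq⟩ := hA a ha a ha
  have hlt : ∀ b ∈ A, |th b l| < Real.pi / 2 := fun b hb => (th_abs_lt_iff b l).mpr (hcon b hb)
  have hsum : ∀ b ∈ A, ∀ b' ∈ A, th (b + b') l = th b l + th b' l := by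
    intro b hb b' hb'
    have h1 := abs_lt.mp (hlt b hb)
    have h3 := abs_lt.mp (hlt b' hb')
    refine th_add ⟨by linarith [h1.1, h3.1], by linarith [h1.2, h3.2]⟩
  have h3 := hsum c hc d hd
  rw [hcd, hsum a ha a ha] at h3
  have h4 := hmax c hc
  have h5 := hmax d hd
  have h6 : th c l = th a l := by linarith
  have h7 : th d l = th a l := by linarith
  rw [th_inj hl h6, th_inj hl h7] at hneq
  exact hneq rfl

/-- (0.2) pigeonhole -/
theorem pigeon (E : Finset (ZMod p)) (hE : 9 ^ E.card < p) :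
    ∃ μ : ZMod p, μ ≠ 0 ∧ ∀ c ∈ E, |th c μ| < Real.pi / 4 := by
  have hp0 : 0 < p := (Fact.out : p.Prime).pos
  have hp0' : (0 : ℝ) < p := by exact_mod_cast hp0
  have hlt : ∀ x : ZMod p, 9 * x.val / p < 9 := fun x => by
    rw [Nat.div_lt_iff_lt_mul hp0]
    have := ZMod.val_lt x
    omega
  set F : ZMod p → (E → Fin 9) := fun l c => ⟨9 * ((c : ZMod p) * l).val / p, hlt _⟩ with hF
  obtain ⟨l, l', hne, heq⟩ := Fintype.exists_ne_map_eq_of_card_lt F (by
    rw [Fintype.card_fun, Fintype.card_fin, Fintype.card_coe, ZMod.card]; exact hE)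
  refine ⟨l - l', sub_ne_zero.mpr hne, fun c hc => ?_⟩
  have h1 : 9 * (c * l).val / p = 9 * (c * l').val / p := by
    have := congrFun heq ⟨c, hc⟩
    simpa only [hF, Fin.mk.injEq] using this
  set m : ℕ := (c * l).val with hm
  set m' : ℕ := (c * l').val with hm'
  set k : ℕ := 9 * m / p with hk
  -- both `9 m` and `9 m'` lie in `[k p, (k+1) p)`
  have h2 : k * p ≤ 9 * m := Nat.div_mul_le_self _ _
  have h3 : 9 * m < (k + 1) * p := (Nat.div_lt_iff_lt_mul hp0).mp (by omega)
  have h4 : k * p ≤ 9 * m' := by rw [h1]; exact Nat.div_mul_le_self _ _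
  have h5 : 9 * m' < (k + 1) * p := by rw [h1]; exact (Nat.div_lt_iff_lt_mul hp0).mp (by omega)
  have h2' : (k : ℝ) * p ≤ 9 * m := by exact_mod_cast h2
  have h3' : (9 : ℝ) * m < (k + 1) * p := by exact_mod_cast h3
  have h4' : (k : ℝ) * p ≤ 9 * m' := by exact_mod_cast h4
  have h5' : (9 : ℝ) * m' < (k + 1) * p := by exact_mod_cast h5
  set θ : ℝ := 2 * Real.pi * ((m : ℝ) - m') / p with hθ
  have hpi := Real.pi_pos
  have habs : |θ| < Real.pi / 4 := by
    have h6 : |(m : ℝ) - m'| < p / 9 := by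
      rw [abs_lt]
      constructor <;> nlinarith
    rw [hθ, abs_div, abs_mul, abs_of_pos (by positivity : (0 : ℝ) < 2 * Real.pi), abs_of_pos hp0',
      div_lt_iff₀ hp0']
    calc 2 * Real.pi * |(m : ℝ) - m'| < 2 * Real.pi * (p / 9) := by
          exact mul_lt_mul_of_pos_left h6 (by positivity)
      _ ≤ Real.pi / 4 * p := by nlinarith
  have hz : z c (l - l') = Complex.exp ((θ : ℂ) * Complex.I) := by
    have h6 : c * (l - l') = (((m : ℤ) - (m' : ℤ) : ℤ) : ZMod p) := by
      rw [mul_sub]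
      push_cast
      rw [hm, hm', ZMod.natCast_zmod_val, ZMod.natCast_zmod_val]
    rw [z, h6, ZMod.stdAddChar_coe, hθ]
    congr 1
    push_cast
    ring
  have h7 := abs_lt.mp habs
  rw [th_of_exp hz ⟨by linarith [h7.1], by linarith [h7.2]⟩]
  exact habs

/-- `n ≥ (log p) / log 9` -/
theorem card_ge (hp : 3 ≤ p) (A : Finset (ZMod p)) (hA : NUS A) (h2 : 2 ≤ A.card) :
    Real.log p ≤ Real.log 9 * A.card := by
  by_contra hcon
  push Not at hcon
  have hp0 : (0 : ℝ) < p := by exact_mod_cast (by omega : 0 < p)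
  have h1 : 9 ^ A.card < p := by
    have h3 : Real.log (9 ^ A.card : ℝ) < Real.log p := by
      rw [Real.log_pow]; linarith
    have h4 := (Real.log_lt_log_iff (by positivity) hp0).mp h3
    exact_mod_cast h4
  obtain ⟨μ, hμ, hall⟩ := pigeon A h1
  obtain ⟨a, ha, hu⟩ := straus hp A hA h2 μ hμ
  have h3 : u a μ < 1 := by
    rw [← th_abs_lt_iff]
    have := hall a ha
    have := Real.pi_pos
    linarith
  linarith

/-- (0.3): the general additivity of the lifts -/
theorem th_additive {μ x y a b c d : ZMod p} (ha : |th (a - x) μ| < Real.pi / 4)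
    (hb : |th (b - y) μ| < Real.pi / 4) (hc : |th (c - x) μ| < Real.pi / 4)
    (hd : |th (d - y) μ| < Real.pi / 4) (h : a + b = c + d) :
    th (a - x) μ + th (b - y) μ = th (c - x) μ + th (d - y) μ := by
  have hpi := Real.pi_pos
  have ha' := abs_lt.mp ha
  have hb' := abs_lt.mp hb
  have hc' := abs_lt.mp hc
  have hd' := abs_lt.mp hd
  rw [← th_add ⟨by linarith [ha'.1, hb'.1], by linarith [ha'.2, hb'.2]⟩,
    ← th_add ⟨by linarith [hc'.1, hd'.1], by linarith [hc'.2, hd'.2]⟩]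
  congr 1
  linear_combination h

/-- (0.3) lifts -/
theorem lift_of_mu {μ : ZMod p} (hμ : μ ≠ 0) (x y : ZMod p) (X Y : Finset (ZMod p))
    (hX : ∀ c ∈ X, |th (c - x) μ| < Real.pi / 4) (hY : ∀ c ∈ Y, |th (c - y) μ| < Real.pi / 4) :
    ∃ ψ ψ' : ZMod p → ℝ, Set.InjOn ψ X ∧ Set.InjOn ψ' Y ∧
      ∀ q q' z, q ∈ X → q - z ∈ X → q' ∈ Y → q' + z ∈ Y →
        ψ q + ψ' q' = ψ (q - z) + ψ' (q' + z) := by
  refine ⟨fun c => th (c - x) μ, fun c => th (c - y) μ, ?_, ?_, ?_⟩
  · intro a _ b _ h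
    have := th_inj hμ h
    exact sub_left_injective this
  · intro a _ b _ h
    have := th_inj hμ h
    exact sub_left_injective this
  · intro q q' z hq hqz hq' hqz'
    exact th_additive (hX _ hq) (hY _ hq') (hX _ hqz) (hY _ hqz') (by abel)

end Pool.MPbe0380.Gb
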