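import Pool.Agent.Lib.MP_be0380_co.G0

/-!
# (2.1): Ginibre's inequality: `E_I u_a` is nonincreasing in `I`
-/

namespace Pool.MPbe0380.Gb

open Finset Real

section kernels

variable {X : Type*}

/-- kernels of positive type: finite sums of `φ(s) φ(t)` -/
def PK (K : X → X → ℝ) : Prop :=
  ∃ (ι : Type) (_ : Fintype ι) (φ : ι → X → ℝ), ∀ s t, K s t = ∑ k, φ k s * φ k t

theorem PK.congr {K K' : X → X → ℝ} (h : PK K) (he : ∀ s t, K' s t = K s t) : PK K' := by
  obtain ⟨ι, _, φ, hφ⟩ := h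
  exact ⟨ι, inferInstance, φ, fun s t => by rw [he, hφ]⟩

theorem PK.rank1 (φ : X → ℝ) : PK fun s t => φ s * φ t :=
  ⟨Unit, inferInstance, fun _ => φ, fun s t => by simp⟩

theorem PK.one : PK fun _ _ : X => (1 : ℝ) :=
  (PK.rank1 fun _ => 1).congr fun s t => by ring

theorem PK.zero : PK fun _ _ : X => (0 : ℝ) :=
  ⟨Empty, inferInstance, fun k => k.elim, fun s t => by simp⟩

theorem PK.add {K K' : X → X → ℝ} (h : PK K) (h' : PK K') : PK fun s t => K s t + K' s t := by
  obtain ⟨ι, _, φ, hφ⟩ := h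
  obtain ⟨ι', _, φ', hφ'⟩ := h'
  refine ⟨ι ⊕ ι', inferInstance, fun k => k.elim φ φ', fun s t => ?_⟩
  beta_reduce
  rw [Fintype.sum_sum_type, hφ, hφ']
  simp

theorem PK.mul {K K' : X → X → ℝ} (h : PK K) (h' : PK K') : PK fun s t => K s t * K' s t := by
  obtain ⟨ι, _, φ, hφ⟩ := h
  obtain ⟨ι', _, φ', hφ'⟩ := h'
  refine ⟨ι × ι', inferInstance, fun k s => φ k.1 s * φ' k.2 s, fun s t => ?_⟩
  beta_reduce
  rw [Fintype.sum_prod_type, hφ, hφ', sum_mul_sum]
  exact sum_congr rfl fun i _ => sum_congr rfl fun j _ => by ring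

theorem PK.smul {K : X → X → ℝ} (h : PK K) {c : ℝ} (hc : 0 ≤ c) : PK fun s t => c * K s t := by
  have h1 : PK fun _ _ : X => c :=
    (PK.rank1 fun _ => √c).congr fun s t => by rw [Real.mul_self_sqrt hc]
  exact h1.mul h

theorem PK.sum {κ : Type*} (S : Finset κ) {K : κ → X → X → ℝ} (h : ∀ k ∈ S, PK (K k)) :
    PK fun s t => ∑ k ∈ S, K k s t := by
  classical
  induction S using Finset.induction_on with
  | empty => exact PK.zero.congr fun s t => by simp
  | insert a S ha ih =>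
    refine ((h a (mem_insert_self a S)).add
      (ih fun k hk => h k (mem_insert_of_mem hk))).congr fun s t => ?_
    rw [sum_insert ha]

theorem PK.pow {K : X → X → ℝ} (h : PK K) (n : ℕ) : PK fun s t => K s t ^ n := by
  induction n with
  | zero => exact PK.one.congr fun s t => by simp
  | succ n ih => exact (ih.mul h).congr fun s t => by rw [pow_succ]

theorem PK.sum_nonneg [Fintype X] {K : X → X → ℝ} (h : PK K) : 0 ≤ ∑ s, ∑ t, K s t := by
  obtain ⟨ι, _, φ, hφ⟩ := h
  have h1 : ∑ s, ∑ t, K s t = ∑ k, (∑ s, φ k s) ^ 2 := by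
    simp only [hφ]
    have h2 : ∀ k, (∑ s, φ k s) ^ 2 = ∑ s, ∑ t, φ k s * φ k t := fun k => by
      rw [sq, sum_mul_sum]
    simp only [h2]
    rw [sum_comm]
    calc ∑ t, ∑ s, ∑ k, φ k s * φ k t = ∑ t, ∑ k, ∑ s, φ k s * φ k t :=
          sum_congr rfl fun t _ => sum_comm
      _ = ∑ k, ∑ t, ∑ s, φ k s * φ k t := sum_comm
      _ = ∑ k, ∑ s, ∑ t, φ k s * φ k t := sum_congr rfl fun k _ => sum_comm
  rw [h1]
  exact Finset.sum_nonneg fun k _ => sq_nonneg _

open Filter Topology in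
theorem PK.sinh_exp [Fintype X] {K₁ K₂ K₃ : X → X → ℝ} (h₁ : PK K₁) (h₂ : PK K₂) (h₃ : PK K₃) :
    0 ≤ ∑ s, ∑ t, K₁ s t * Real.sinh (K₂ s t) * Real.exp (K₃ s t) := by
  have hs : ∀ x : ℝ, Tendsto (fun N => ∑ n ∈ range N, x ^ (2 * n + 1) / ((2 * n + 1).factorial : ℝ))
      atTop (𝓝 (Real.sinh x)) := fun x => (Real.hasSum_sinh x).tendsto_sum_nat
  have he : ∀ x : ℝ, Tendsto (fun N => ∑ n ∈ range N, x ^ n / (n.factorial : ℝ))
      atTop (𝓝 (Real.exp x)) := fun x => by
    have := (NormedSpace.expSeries_div_hasSum_exp x).tendsto_sum_nat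
    rwa [← Real.exp_eq_exp_ℝ] at this
  have ht : Tendsto (fun N => ∑ s, ∑ t, K₁ s t *
      (∑ n ∈ range N, K₂ s t ^ (2 * n + 1) / ((2 * n + 1).factorial : ℝ)) *
      (∑ n ∈ range N, K₃ s t ^ n / (n.factorial : ℝ))) atTop
      (𝓝 (∑ s, ∑ t, K₁ s t * Real.sinh (K₂ s t) * Real.exp (K₃ s t))) := by
    refine tendsto_finsetSum _ fun s _ => tendsto_finsetSum _ fun t _ => ?_
    exact ((hs _).const_mul _).mul (he _)
  refine ge_of_tendsto' ht fun N => ?_
  refine PK.sum_nonneg (K := fun s t => K₁ s t *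
      (∑ n ∈ range N, K₂ s t ^ (2 * n + 1) / ((2 * n + 1).factorial : ℝ)) *
      (∑ n ∈ range N, K₃ s t ^ n / (n.factorial : ℝ))) ?_
  refine (h₁.mul (PK.sum _ fun n _ => ?_)).mul (PK.sum _ fun n _ => ?_)
  · refine ((h₂.pow (2 * n + 1)).smul (c := ((2 * n + 1).factorial : ℝ)⁻¹) (by positivity)).congr ?_
    intro s t; rw [div_eq_inv_mul]
  · refine ((h₃.pow n).smul (c := (n.factorial : ℝ)⁻¹) (by positivity)).congr ?_
    intro s t; rw [div_eq_inv_mul]

end kernels

variable {p : ℕ} [Fact p.Prime]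

/-- the substitution `l = s + t`, `l' = s - t` -/
theorem sum_sum_eq (hp : p ≠ 2) (F : ZMod p → ZMod p → ℝ) :
    ∑ l, ∑ l', F l l' = ∑ s, ∑ t, F (s + t) (s - t) := by
  have h2 : (2 : ZMod p) ≠ 0 := by
    intro h
    have h3 : ((2 : ℕ) : ZMod p) = 0 := by exact_mod_cast h
    rw [ZMod.natCast_eq_zero_iff] at h3
    exact hp ((Nat.prime_dvd_prime_iff_eq Fact.out Nat.prime_two).mp h3)
  have hinj : Function.Injective fun x : ZMod p × ZMod p => (x.1 + x.2, x.1 - x.2) := by
    rintro ⟨a, b⟩ ⟨c, d⟩ h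
    simp only [Prod.mk.injEq] at h
    obtain ⟨h1, h3⟩ := h
    have h4 : (2 : ZMod p) * (a - c) = 0 := by linear_combination h1 + h3
    have h5 : a = c := by
      rcases mul_eq_zero.mp h4 with h | h
      · exact absurd h h2
      · exact sub_eq_zero.mp h
    subst h5
    rw [add_right_inj] at h1
    rw [h1]
  have hbij := hinj.bijective_of_finite
  rw [← Fintype.sum_prod_type', ← Fintype.sum_prod_type' (f := fun s t => F (s + t) (s - t))]
  exact (hbij.sum_comp fun x : ZMod p × ZMod p => F x.1 x.2).symm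

theorem u_add_right (a l m : ZMod p) :
    u a (l + m) = 1 - (z a l).re * (z a m).re + s a l * s a m := by
  rw [u, z_add_right, Complex.mul_re]
  simp only [s]
  ring

theorem u_sub_right (a l m : ZMod p) :
    u a (l - m) = 1 - (z a l).re * (z a m).re - s a l * s a m := by
  rw [sub_eq_add_neg, u_add_right, s_neg_right, z_neg_right, Complex.conj_re]
  ring

/-- the basic correlation inequality -/
theorem ginibre_corr (hp : p ≠ 2) {I J : ZMod p → ℝ} (hI : ∀ b, 0 ≤ I b) (hJ : ∀ b, 0 ≤ J b)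
    (a : ZMod p) :
    ∑ l, ∑ l', Real.exp (- en I l) * Real.exp (- en I l') * (u a l - u a l') *
      (Real.exp (- en J l) - Real.exp (- en J l')) ≤ 0 := by
  rw [sum_sum_eq hp]
  have hen1 : ∀ (K : ZMod p → ℝ) (x y : ZMod p), en K (x + y) =
      ∑ b, K b - ∑ b, K b * ((z b x).re * (z b y).re) + ∑ b, K b * (s b x * s b y) := by
    intro K x y
    simp only [en, u_add_right]
    rw [← sum_sub_distrib, ← sum_add_distrib]
    exact sum_congr rfl fun b _ => by ring
  have hen2 : ∀ (K : ZMod p → ℝ) (x y : ZMod p), en K (x - y) =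
      ∑ b, K b - ∑ b, K b * ((z b x).re * (z b y).re) - ∑ b, K b * (s b x * s b y) := by
    intro K x y
    simp only [en, u_sub_right]
    rw [← sum_sub_distrib, ← sum_sub_distrib]
    exact sum_congr rfl fun b _ => by ring
  have hterm : ∀ x y : ZMod p, Real.exp (- en I (x + y)) * Real.exp (- en I (x - y)) *
      (u a (x + y) - u a (x - y)) * (Real.exp (- en J (x + y)) - Real.exp (- en J (x - y))) =
      - (4 * Real.exp (- (2 * ∑ b, I b + ∑ b, J b)) * ((s a x * s a y) *
        Real.sinh (∑ b, J b * (s b x * s b y)) *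
        Real.exp (∑ b, (2 * I b + J b) * ((z b x).re * (z b y).re)))) := by
    intro x y
    rw [hen1, hen2, hen1, hen2, u_add_right, u_sub_right]
    set cI := ∑ b, I b * ((z b x).re * (z b y).re) with hcI
    set cJ := ∑ b, J b * ((z b x).re * (z b y).re) with hcJ
    set sI := ∑ b, I b * (s b x * s b y)
    set sJ := ∑ b, J b * (s b x * s b y)
    have hc : ∑ b, (2 * I b + J b) * ((z b x).re * (z b y).re) = 2 * cI + cJ := by
      rw [hcI, hcJ, mul_sum, ← sum_add_distrib]
      exact sum_congr rfl fun b _ => by ring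
    rw [hc, Real.sinh_eq]
    have e1 : Real.exp (-(∑ b, I b - cI + sI)) * Real.exp (-(∑ b, I b - cI - sI)) =
        Real.exp (-(2 * ∑ b, I b)) * Real.exp (2 * cI) := by
      rw [← Real.exp_add, ← Real.exp_add]; congr 1; ring
    have e2 : Real.exp (-(∑ b, J b - cJ + sJ)) = Real.exp (-∑ b, J b) * Real.exp cJ * Real.exp (-sJ) := by
      rw [← Real.exp_add, ← Real.exp_add]; congr 1; ring
    have e3 : Real.exp (-(∑ b, J b - cJ - sJ)) = Real.exp (-∑ b, J b) * Real.exp cJ * Real.exp sJ := by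
      rw [← Real.exp_add, ← Real.exp_add]; congr 1; ring
    have e4 : Real.exp (-(2 * ∑ b, I b + ∑ b, J b)) =
        Real.exp (-(2 * ∑ b, I b)) * Real.exp (-∑ b, J b) := by
      rw [← Real.exp_add]; congr 1; ring
    have e5 : Real.exp (2 * cI + cJ) = Real.exp (2 * cI) * Real.exp cJ := Real.exp_add _ _
    rw [e1, e2, e3, e4, e5]
    ring
  simp only [hterm]
  simp only [sum_neg_distrib, ← mul_sum]
  rw [neg_nonpos]
  refine mul_nonneg (by positivity) ?_
  refine PK.sinh_exp (K₁ := fun x y => s a x * s a y)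
    (K₂ := fun x y => ∑ b, J b * (s b x * s b y))
    (K₃ := fun x y => ∑ b, (2 * I b + J b) * ((z b x).re * (z b y).re)) (PK.rank1 _) ?_ ?_
  · exact PK.sum _ fun b _ => (PK.rank1 (s b)).smul (hJ b)
  · exact PK.sum _ fun b _ => (PK.rank1 fun x => (z b x).re).smul (by
      have := hI b; have := hJ b; linarith)

/-- (2.1): `E_I u_a` is nonincreasing in `I` -/
theorem Ex_u_anti (hp : p ≠ 2) {I I' : ZMod p → ℝ} (hI : ∀ b, 0 ≤ I b) (hII : ∀ b, I b ≤ I' b)
    (a : ZMod p) : Ex I' (u a) ≤ Ex I (u a) := by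
  set J : ZMod p → ℝ := fun b => I' b - I b with hJ
  have hJ0 : ∀ b, 0 ≤ J b := fun b => sub_nonneg.mpr (hII b)
  have hen : ∀ l, Real.exp (- en I' l) = Real.exp (- en I l) * Real.exp (- en J l) := by
    intro l
    rw [← Real.exp_add]
    congr 1
    simp only [en, hJ]
    rw [← neg_add, ← sum_add_distrib]
    congr 1
    exact sum_congr rfl fun b _ => by ring
  have key := ginibre_corr hp hI hJ0 a
  have h1 : ∑ l, ∑ l', Real.exp (- en I l) * Real.exp (- en I l') * (u a l - u a l') *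
      (Real.exp (- en J l) - Real.exp (- en J l')) =
      2 * ((∑ l, Real.exp (- en I' l) * u a l) * Zp I - (∑ l, Real.exp (- en I l) * u a l) * Zp I') := by
    have h2 : ∀ l l', Real.exp (- en I l) * Real.exp (- en I l') * (u a l - u a l') *
      (Real.exp (- en J l) - Real.exp (- en J l')) =
        (Real.exp (- en I' l) * u a l) * Real.exp (- en I l') +
        Real.exp (- en I l) * (Real.exp (- en I' l') * u a l') -
        (Real.exp (- en I l) * u a l) * Real.exp (- en I' l') -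
        Real.exp (- en I' l) * (Real.exp (- en I l') * u a l') := by
      intro l l'
      rw [hen, hen]; ring
    simp only [h2, sum_sub_distrib, sum_add_distrib, ← mul_sum, ← sum_mul]
    simp only [Zp]
    ring
  rw [h1] at key
  have h3 : (∑ l, Real.exp (- en I' l) * u a l) * Zp I ≤
      (∑ l, Real.exp (- en I l) * u a l) * Zp I' := by linarith
  have h4 : ∀ K : ZMod p → ℝ, Ex K (u a) = (∑ l, Real.exp (- en K l) * u a l) / Zp K := by
    intro K
    simp only [Ex, om, div_mul_eq_mul_div]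
    rw [← sum_div]
  rw [h4, h4, div_le_div_iff₀ (Zp_pos _) (Zp_pos _)]
  exact h3

/-- (2.1) -/
theorem ginibre (hp : 3 ≤ p) (I J : ZMod p → ℝ) (hI : ∀ a, 0 ≤ I a) (hJ : ∀ a, 0 ≤ J a)
    (a : ZMod p) : Ex (I + J) (u a) ≤ Ex I (u a) :=
  Ex_u_anti (by omega) hI (fun b => by rw [Pi.add_apply]; linarith [hJ b]) a

end Pool.MPbe0380.Gb
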