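import Pool.Agent.Lib.MP_be0380_co.G.Four

/-!
# be0380, Gibbs system, module G7: the budget inequality (S4)

(2.5)(b) and (c) are applied to the conditioned law of every cell.
-/

set_option autoImplicit false

open Finset

namespace Pool.MPbe0380.Gb

variable {p : ℕ} [Fact p.Prime]

namespace Lev

variable (v : Lev p)

open Classical in
/-- the law conditioned to the cell of `l` -/
noncomputable def cellLaw (F : Setoid (ZMod p)) (l l' : ZMod p) : ℝ :=
  if F.r l' l then om v.I l' / cprob (om v.I) F l else 0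

theorem cprob_pos' (F : Setoid (ZMod p)) (l : ZMod p) : 0 < cprob (om v.I) F l := by
  classical
  unfold cprob csum
  refine sum_pos ?_ ⟨l, mem_filter.mpr ⟨mem_univ _, F.refl l⟩⟩
  intro l' _
  rw [mul_one]
  exact om_pos _ _

theorem cellLaw_sum (F : Setoid (ZMod p)) (l : ZMod p) (f : ZMod p → ℝ) :
    ∑ l', v.cellLaw F l l' * f l' = cexp (om v.I) F f l := by
  classical
  unfold cexp csum cellLaw
  rw [sum_filter, sum_div]
  refine sum_congr rfl ?_
  intro l' _
  split_ifs
  · ring
  · ring

theorem isLaw_cellLaw (F : Setoid (ZMod p)) (l : ZMod p) : IsLaw (v.cellLaw F l) := by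
  classical
  have hpos := v.cprob_pos' F l
  refine ⟨?_, ?_⟩
  · intro l'
    unfold cellLaw
    split_ifs
    · exact (div_pos (om_pos _ _) hpos).le
    · exact le_rfl
  · have h1 := v.cellLaw_sum F l (fun _ => 1)
    simp only [mul_one] at h1
    rw [h1]
    unfold cexp
    exact div_self hpos.ne'

theorem KL_cellLaw (F : Setoid (ZMod p)) (l : ZMod p) :
    KL (v.cellLaw F l) (om v.I) = - Real.log (cprob (om v.I) F l) := by
  classical
  have hpos := v.cprob_pos' F l
  unfold KL
  have h1 : ∀ l', v.cellLaw F l l' * Real.log (v.cellLaw F l l' / om v.I l') =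
      v.cellLaw F l l' * (- Real.log (cprob (om v.I) F l)) := by
    intro l'
    by_cases h : F.r l' l
    · have h2 : v.cellLaw F l l' / om v.I l' = (cprob (om v.I) F l)⁻¹ := by
        unfold cellLaw
        rw [if_pos h]
        have := (om_pos v.I l').ne'
        field_simp
      rw [h2, Real.log_inv]
    · have h2 : v.cellLaw F l l' = 0 := by
        unfold cellLaw
        rw [if_neg h]
      rw [h2, zero_mul, zero_mul]
  rw [sum_congr rfl (fun l' _ => h1 l'), ← sum_mul, (v.isLaw_cellLaw F l).2, one_mul]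

/-- (S4): the total confinement is at most `4 cost / L` -/
theorem budget (F : Setoid (ZMod p)) (G0 : Finset (ZMod p)) (hG0 : G0 ⊆ v.supp) :
    ∑ x ∈ G0, v.J x * v.kap F x ≤ 4 * v.cost F / v.L := by
  classical
  have hL := v.L_pos
  set w := om v.I with hw
  have hw0 : ∀ l, 0 ≤ w l := fun l => (om_pos v.I l).le
  -- first part
  have hb : ∀ l, ∑ x ∈ G0, v.J x * (cexp w F (s x) l) ^ 2 ≤ 2 * (- Real.log (cprob w F l)) := by
    intro l
    have h1 := v.pb (v.cellLaw F l) (v.isLaw_cellLaw F l)
    rw [v.KL_cellLaw F l] at h1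
    refine le_trans ?_ h1
    have h2 : ∀ x, v.J x * (∑ l', v.cellLaw F l l' * s x l') ^ 2 =
        v.J x * (cexp w F (s x) l) ^ 2 := by
      intro x
      rw [v.cellLaw_sum F l (s x)]
    rw [sum_congr rfl (fun x _ => h2 x)]
    refine sum_le_sum_of_subset_of_nonneg (subset_univ _) ?_
    intro x _ _
    exact mul_nonneg (v.J_nonneg x) (sq_nonneg _)
  -- second part
  have hc : ∀ l, ∑ x ∈ G0, v.J x * max (cexp w F (u x) l - 8 * v.L) 0 ≤
      2 * (- Real.log (cprob w F l)) := by
    intro l
    set T := G0.filter (fun x => 8 * v.L < cexp w F (u x) l) with hT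
    have h1 := v.pc (v.cellLaw F l) (v.isLaw_cellLaw F l) T ((filter_subset _ _).trans hG0)
    rw [v.KL_cellLaw F l] at h1
    have h2 : ∑ x ∈ G0, v.J x * max (cexp w F (u x) l - 8 * v.L) 0 =
        ∑ x ∈ T, v.J x * (cexp w F (u x) l - 8 * v.L) := by
      rw [hT, sum_filter]
      refine sum_congr rfl ?_
      intro x _
      split_ifs with h
      · rw [max_eq_left (by linarith)]
      · rw [max_eq_right (by linarith), mul_zero]
    have h3 : ∀ x, v.J x * (∑ l', v.cellLaw F l l' * u x l') = v.J x * cexp w F (u x) l := by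
      intro x
      rw [v.cellLaw_sum F l (u x)]
    rw [sum_congr rfl (fun x _ => h3 x)] at h1
    rw [h2]
    have h4 : ∑ x ∈ T, v.J x * (cexp w F (u x) l - 8 * v.L) =
        ∑ x ∈ T, v.J x * cexp w F (u x) l - 8 * v.L * ∑ x ∈ T, v.J x := by
      rw [mul_sum, ← sum_sub_distrib]
      refine sum_congr rfl ?_
      intro x _
      ring
    rw [h4]
    linarith
  have hcost : v.cost F = ∑ l, w l * (- Real.log (cprob w F l)) := by
    unfold cost cent
    rw [← sum_neg_distrib]
    refine sum_congr rfl ?_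
    intro l _
    ring
  have e1 : ∑ x ∈ G0, v.J x * v.E (fun l => (cexp w F (s x) l) ^ 2) =
      ∑ l, w l * ∑ x ∈ G0, v.J x * (cexp w F (s x) l) ^ 2 := by
    simp only [E, Ex, mul_sum]
    rw [sum_comm]
    refine sum_congr rfl fun l _ => sum_congr rfl fun x _ => ?_
    ring
  have e2 : ∑ x ∈ G0, v.J x * v.E (fun l => max (cexp w F (u x) l - 8 * v.L) 0) =
      ∑ l, w l * ∑ x ∈ G0, v.J x * max (cexp w F (u x) l - 8 * v.L) 0 := by
    simp only [E, Ex, mul_sum]
    rw [sum_comm]
    refine sum_congr rfl fun l _ => sum_congr rfl fun x _ => ?_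
    ring
  have f1 : ∑ l, w l * ∑ x ∈ G0, v.J x * (cexp w F (s x) l) ^ 2 ≤ 2 * v.cost F := by
    rw [hcost, mul_sum]
    refine sum_le_sum ?_
    intro l _
    have := mul_le_mul_of_nonneg_left (hb l) (hw0 l)
    linarith
  have f2 : ∑ l, w l * ∑ x ∈ G0, v.J x * max (cexp w F (u x) l - 8 * v.L) 0 ≤ 2 * v.cost F := by
    rw [hcost, mul_sum]
    refine sum_le_sum ?_
    intro l _
    have := mul_le_mul_of_nonneg_left (hc l) (hw0 l)
    linarith
  have g : ∑ x ∈ G0, v.J x * v.kap F x = v.L⁻¹ *
      (∑ x ∈ G0, v.J x * v.E (fun l => (cexp w F (s x) l) ^ 2) +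
        ∑ x ∈ G0, v.J x * v.E (fun l => max (cexp w F (u x) l - 8 * v.L) 0)) := by
    rw [← sum_add_distrib, mul_sum]
    refine sum_congr rfl ?_
    intro x _
    unfold kap
    ring
  rw [g, e1, e2, div_eq_inv_mul]
  refine mul_le_mul_of_nonneg_left ?_ (inv_nonneg.mpr hL.le)
  linarith

end Lev

end Pool.MPbe0380.Gb
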