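import Pool.Agent.Lib.MP_be0380_co.G.Defs

/-!
# G5: partitions of a finite set with a positive law
-/

set_option autoImplicit false

open Finset

namespace Pool.MPbe0380.Gb

section G5

variable {Ω : Type} [Fintype Ω] (w : Ω → ℝ)

open Classical in
private theorem csum_eq (F : Setoid Ω) (f : Ω → ℝ) (l : Ω) :
    csum w F f l = ∑ l', if F.r l' l then w l' * f l' else 0 := by
  unfold csum
  rw [sum_filter]

private theorem csum_congr (F : Setoid Ω) (f : Ω → ℝ) {l m : Ω} (h : F.r l m) :
    csum w F f l = csum w F f m := by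
  rw [csum_eq, csum_eq]
  refine sum_congr rfl fun x _ => ?_
  by_cases h1 : F.r x l
  · rw [if_pos h1, if_pos (F.trans' h1 h)]
  · rw [if_neg h1, if_neg fun h2 => h1 (F.trans' h2 (F.symm' h))]

private theorem cprob_congr (F : Setoid Ω) {l m : Ω} (h : F.r l m) :
    cprob w F l = cprob w F m := csum_congr w F _ h

private theorem cexp_congr (F : Setoid Ω) (f : Ω → ℝ) {l m : Ω} (h : F.r l m) :
    cexp w F f l = cexp w F f m := by
  unfold cexp
  rw [csum_congr w F f h, cprob_congr w F h]

variable (hw : ∀ l, 0 < w l)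

open Classical in
include hw in
private theorem le_cprob (F : Setoid Ω) (l : Ω) : w l ≤ cprob w F l := by
  unfold cprob
  rw [csum_eq]
  have h := single_le_sum (f := fun l' => if F.r l' l then w l' * 1 else 0)
    (fun i _ => by
      show (0 : ℝ) ≤ if F.r i l then w i * 1 else 0
      split_ifs
      · rw [mul_one]; exact (hw i).le
      · exact le_rfl) (mem_univ l)
  beta_reduce at h
  rw [if_pos (F.refl' l), mul_one] at h
  exact h

include hw in
private theorem cprob_pos (F : Setoid Ω) (l : Ω) : 0 < cprob w F l :=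
  (hw l).trans_le (le_cprob w hw F l)

include hw in
private theorem cprob_le (F : Setoid Ω) (hw1 : ∑ l, w l = 1) (l : Ω) : cprob w F l ≤ 1 := by
  unfold cprob
  rw [csum_eq]
  refine le_trans (sum_le_sum fun i _ => ?_) hw1.le
  split_ifs
  · rw [mul_one]
  · exact (hw i).le

open Classical in
include hw in
/-- the defining property of the conditional expectation -/
private theorem sum_cexp (F : Setoid Ω) (f g : Ω → ℝ) (hg : ∀ a b, F.r a b → g a = g b) :
    ∑ l, w l * (g l * cexp w F f l) = ∑ l, w l * (g l * f l) := by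
  have h1 : ∀ l, w l * (g l * cexp w F f l) =
      ∑ m, if F.r m l then w l * g m / cprob w F m * (w m * f m) else 0 := by
    intro l
    unfold cexp
    rw [csum_eq, sum_div, mul_sum, mul_sum]
    refine sum_congr rfl fun m _ => ?_
    split_ifs with h
    · rw [hg m l h, cprob_congr w F h]
      ring
    · simp
  have h2 : ∀ m, w m * (g m * f m) =
      ∑ l, if F.r m l then w l * g m / cprob w F m * (w m * f m) else 0 := by
    intro m
    have h3 : ∀ l, (if F.r m l then w l * g m / cprob w F m * (w m * f m) else 0) =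
        (if F.r l m then w l * 1 else 0) * (g m / cprob w F m * (w m * f m)) := by
      intro l
      by_cases h1 : F.r m l
      · rw [if_pos h1, if_pos (F.symm' h1)]
        ring
      · rw [if_neg h1, if_neg fun h2 => h1 (F.symm' h2)]
        ring
    simp only [h3]
    rw [← sum_mul, ← csum_eq]
    have h4 : csum w F (fun _ => 1) m = cprob w F m := rfl
    rw [h4]
    have h5 := (cprob_pos w hw F m).ne'
    field_simp
  simp only [h1, h2]
  rw [sum_comm]

variable (hw1 : ∑ l, w l = 1)

include hw hw1

theorem cent_nonneg (F : Setoid Ω) : 0 ≤ cent w F := by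
  unfold cent
  rw [neg_nonneg]
  refine sum_nonpos fun l _ => ?_
  exact mul_nonpos_of_nonneg_of_nonpos (hw l).le
    (Real.log_nonpos (cprob_pos w hw F l).le (cprob_le w hw F hw1 l))

open Classical in
omit hw1 in
/-- if the elements of a set are pairwise equivalent then the sum of `w / cprob` over it is `≤ 1` -/
private theorem sum_div_cprob_le (F : Setoid Ω) (P : Ω → Prop) [DecidablePred P]
    (hP : ∀ a b, P a → P b → F.r a b) :
    ∑ l, (if P l then w l / cprob w F l else 0) ≤ 1 := by
  by_cases h : ∃ m, P m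
  · obtain ⟨m, hm⟩ := h
    have h1 : ∀ l, (if P l then w l / cprob w F l else 0) ≤
        (if F.r l m then w l * 1 else 0) / cprob w F m := by
      intro l
      by_cases h1 : P l
      · have h2 := hP l m h1 hm
        rw [if_pos h1, if_pos h2, mul_one, cprob_congr w F h2]
      · rw [if_neg h1]
        refine div_nonneg ?_ (cprob_pos w hw F m).le
        split_ifs
        · rw [mul_one]; exact (hw l).le
        · exact le_rfl
    refine (sum_le_sum fun l _ => h1 l).trans ?_
    rw [← sum_div, ← csum_eq]
    have h4 : csum w F (fun _ => 1) m = cprob w F m := rfl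
    rw [h4, div_self (cprob_pos w hw F m).ne']
  · have : ∀ l, (if P l then w l / cprob w F l else 0) = 0 := fun l => by
      rw [if_neg fun hl => h ⟨l, hl⟩]
    simp only [this, sum_const_zero]
    exact zero_le_one

theorem cent_inf (F F' : Setoid Ω) : cent w (F ⊓ F') ≤ cent w F + cent w F' := by
  classical
  have key : ∀ l, w l * Real.log (cprob w F l) + w l * Real.log (cprob w F' l) -
      w l * Real.log (cprob w (F ⊓ F') l) ≤
      w l * (cprob w F l * cprob w F' l / cprob w (F ⊓ F') l) - w l := by
    intro l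
    have h1 := cprob_pos w hw F l
    have h2 := cprob_pos w hw F' l
    have h3 := cprob_pos w hw (F ⊓ F') l
    have h4 : Real.log (cprob w F l * cprob w F' l / cprob w (F ⊓ F') l) ≤
        cprob w F l * cprob w F' l / cprob w (F ⊓ F') l - 1 :=
      Real.log_le_sub_one_of_pos (div_pos (mul_pos h1 h2) h3)
    rw [Real.log_div (mul_pos h1 h2).ne' h3.ne', Real.log_mul h1.ne' h2.ne'] at h4
    have h5 := mul_le_mul_of_nonneg_left h4 (hw l).le
    linarith
  have hsum : ∑ l, w l * (cprob w F l * cprob w F' l / cprob w (F ⊓ F') l) ≤ 1 := by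
    have e1 : ∀ l, w l * (cprob w F l * cprob w F' l / cprob w (F ⊓ F') l) =
        ∑ a, ∑ b, (if F.r a l ∧ F'.r b l then w l / cprob w (F ⊓ F') l else 0) * (w a * w b) := by
      intro l
      have e2 : cprob w F l * cprob w F' l =
          ∑ a, ∑ b, (if F.r a l then w a * 1 else 0) * (if F'.r b l then w b * 1 else 0) := by
        unfold cprob
        rw [csum_eq, csum_eq, sum_mul_sum]
      rw [e2, mul_div_assoc', mul_comm (w l), mul_div_assoc, sum_mul]
      refine sum_congr rfl fun a _ => ?_
      rw [sum_mul]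
      refine sum_congr rfl fun b _ => ?_
      by_cases ha : F.r a l <;> by_cases hb : F'.r b l <;> simp [ha, hb]
      ring
    simp only [e1]
    rw [sum_comm]
    calc ∑ a, ∑ l, ∑ b, (if F.r a l ∧ F'.r b l then w l / cprob w (F ⊓ F') l else 0) * (w a * w b)
        = ∑ a, ∑ b, (∑ l, if F.r a l ∧ F'.r b l then w l / cprob w (F ⊓ F') l else 0) * (w a * w b) := by
          refine sum_congr rfl fun a _ => ?_
          rw [sum_comm]
          refine sum_congr rfl fun b _ => ?_
          rw [sum_mul]
      _ ≤ ∑ a, ∑ b, 1 * (w a * w b) := by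
          refine sum_le_sum fun a _ => sum_le_sum fun b _ => ?_
          refine mul_le_mul_of_nonneg_right ?_ (mul_pos (hw a) (hw b)).le
          refine sum_div_cprob_le w hw (F ⊓ F') (fun l => F.r a l ∧ F'.r b l) ?_
          rintro x y ⟨h1, h2⟩ ⟨h3, h4⟩
          exact ⟨F.trans' (F.symm' h1) h3, F'.trans' (F'.symm' h2) h4⟩
      _ = 1 := by
          simp only [one_mul, ← mul_sum, hw1, mul_one]
  have h := sum_le_sum fun l (_ : l ∈ (univ : Finset Ω)) => key l
  rw [sum_sub_distrib, sum_sub_distrib, sum_add_distrib, hw1] at h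
  unfold cent
  linarith

/-- entropy is at most the log of the number of cells -/
theorem cent_ker_le {α : Type} [Fintype α] [Nonempty α] (g : Ω → α) :
    cent w (Setoid.ker g) ≤ Real.log (Fintype.card α) := by
  classical
  set N : ℝ := (Fintype.card α : ℝ) with hN
  have hN0 : 0 < N := by rw [hN]; exact_mod_cast Fintype.card_pos
  have key : ∀ l, -(w l * Real.log (cprob w (Setoid.ker g) l)) - w l * Real.log N ≤
      (w l / cprob w (Setoid.ker g) l) / N - w l := by
    intro l
    have h1 := cprob_pos w hw (Setoid.ker g) l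
    have h2 : Real.log ((cprob w (Setoid.ker g) l * N)⁻¹) ≤ (cprob w (Setoid.ker g) l * N)⁻¹ - 1 :=
      Real.log_le_sub_one_of_pos (inv_pos.mpr (mul_pos h1 hN0))
    rw [Real.log_inv, Real.log_mul h1.ne' hN0.ne'] at h2
    have h3 := mul_le_mul_of_nonneg_left h2 (hw l).le
    have h4 : w l * ((cprob w (Setoid.ker g) l * N)⁻¹ - 1) =
        (w l / cprob w (Setoid.ker g) l) / N - w l := by
      rw [mul_inv]; ring
    rw [h4] at h3
    linarith
  have hsum : ∑ l, w l / cprob w (Setoid.ker g) l ≤ N := by
    have e1 : ∀ l, w l / cprob w (Setoid.ker g) l =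
        ∑ a, if g l = a then w l / cprob w (Setoid.ker g) l else 0 := by
      intro l
      rw [sum_ite_eq univ (g l)]
      simp
    calc ∑ l, w l / cprob w (Setoid.ker g) l
        = ∑ a, ∑ l, (if g l = a then w l / cprob w (Setoid.ker g) l else 0) := by
          rw [sum_comm]
          exact sum_congr rfl fun l _ => e1 l
      _ ≤ ∑ _a : α, (1 : ℝ) := by
          refine sum_le_sum fun a _ => ?_
          refine sum_div_cprob_le w hw (Setoid.ker g) (fun l => g l = a) ?_
          intro x y hx hy
          show g x = g y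
          rw [hx, hy]
      _ = N := by
          rw [sum_const, card_univ, nsmul_eq_mul, mul_one]
  have h := sum_le_sum fun l (_ : l ∈ (univ : Finset Ω)) => key l
  rw [sum_sub_distrib, sum_sub_distrib, sum_neg_distrib, ← sum_mul, ← sum_div, hw1, one_mul] at h
  have h5 : (∑ l, w l / cprob w (Setoid.ker g) l) / N ≤ 1 := by
    rw [div_le_one hN0]; exact hsum
  unfold cent
  linarith

theorem cexp_sq_mono {F F' : Setoid Ω} (h : F' ≤ F) (f : Ω → ℝ) :
    ∑ l, w l * (cexp w F f l) ^ 2 ≤ ∑ l, w l * (cexp w F' f l) ^ 2 := by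
  have hinv : ∀ a b, F.r a b → cexp w F f a = cexp w F f b := fun a b hab => cexp_congr w F f hab
  have h1 := sum_cexp w hw F f (cexp w F f) hinv
  have h2 := sum_cexp w hw F' f (cexp w F f) fun a b hab => hinv a b (h hab)
  have h3 : 0 ≤ ∑ l, w l * (cexp w F' f l - cexp w F f l) ^ 2 :=
    sum_nonneg fun l _ => mul_nonneg (hw l).le (sq_nonneg _)
  have h4 : ∑ l, w l * (cexp w F' f l - cexp w F f l) ^ 2 =
      ∑ l, w l * (cexp w F' f l) ^ 2 - 2 * ∑ l, w l * (cexp w F f l * cexp w F' f l) +
      ∑ l, w l * (cexp w F f l * cexp w F f l) := by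
    rw [mul_sum, ← sum_sub_distrib, ← sum_add_distrib]
    exact sum_congr rfl fun l _ => by ring
  have h5 : ∑ l, w l * (cexp w F f l) ^ 2 = ∑ l, w l * (cexp w F f l * cexp w F f l) :=
    sum_congr rfl fun l _ => by ring
  rw [h5]
  rw [h4, h2, h1] at h3
  rw [h1]
  linarith

theorem cexp_max_mono {F F' : Setoid Ω} (h : F' ≤ F) (f : Ω → ℝ) (c : ℝ) :
    ∑ l, w l * max (cexp w F f l - c) 0 ≤ ∑ l, w l * max (cexp w F' f l - c) 0 := by
  classical
  set χ : Ω → ℝ := fun l => if c < cexp w F f l then 1 else 0 with hχ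
  have hinv : ∀ a b, F.r a b → χ a = χ b := fun a b hab => by
    simp only [hχ, cexp_congr w F f hab]
  have h1 := sum_cexp w hw F f χ hinv
  have h2 := sum_cexp w hw F' f χ fun a b hab => hinv a b (h hab)
  have h3 : ∀ l, w l * max (cexp w F f l - c) 0 = w l * (χ l * cexp w F f l) - c * (w l * χ l) := by
    intro l
    simp only [hχ]
    split_ifs with hl
    · rw [max_eq_left (by linarith)]; ring
    · rw [max_eq_right (by linarith)]; ring
  have h4 : ∀ l, w l * (χ l * cexp w F' f l) - c * (w l * χ l) ≤
      w l * max (cexp w F' f l - c) 0 := by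
    intro l
    have h5 : w l * (χ l * cexp w F' f l) - c * (w l * χ l) = w l * (χ l * (cexp w F' f l - c)) := by
      ring
    rw [h5]
    refine mul_le_mul_of_nonneg_left ?_ (hw l).le
    simp only [hχ]
    split_ifs with hl
    · rw [one_mul]; exact le_max_left _ _
    · rw [zero_mul]; exact le_max_right _ _
  calc ∑ l, w l * max (cexp w F f l - c) 0
      = ∑ l, w l * (χ l * cexp w F f l) - c * ∑ l, w l * χ l := by
        rw [mul_sum, ← sum_sub_distrib]
        exact sum_congr rfl fun l _ => h3 l
    _ = ∑ l, w l * (χ l * cexp w F' f l) - c * ∑ l, w l * χ l := by rw [h1, h2]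
    _ = ∑ l, (w l * (χ l * cexp w F' f l) - c * (w l * χ l)) := by
        rw [mul_sum, ← sum_sub_distrib]
    _ ≤ _ := sum_le_sum fun l _ => h4 l

/-- the maximal entropy: if every cell is a point then the entropy is `ent w` -/
theorem cent_bot : cent w ⊥ = ent w := by
  classical
  have h : ∀ l, cprob w ⊥ l = w l := by
    intro l
    unfold cprob
    rw [csum_eq]
    have : ∀ l', (if (⊥ : Setoid Ω).r l' l then w l' * 1 else 0) = if l' = l then w l' else 0 := by
      intro l'
      have h1 : (⊥ : Setoid Ω).r l' l ↔ l' = l := Iff.rfl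
      simp only [h1, mul_one]
    simp only [this]
    rw [sum_ite_eq' univ l]
    simp
  unfold cent ent
  rw [← sum_neg_distrib]
  refine sum_congr rfl fun l _ => ?_
  rw [h l, Real.negMulLog]
  ring

end G5

end Pool.MPbe0380.Gb
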