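import Pool.Agent.Lib.MP_be0380_co.G.Lst

/-!
# be0380, Gibbs system, module G8: the distance and the confinement property (S5)
-/

set_option autoImplicit false

open Finset

namespace Pool.MPbe0380.Gb

variable {p : ℕ} [Fact p.Prime]

/-- `|e_a(l)| ≤ 2 π ‖a l / p‖` -/
theorem norm_e_le_nrm (a l : ZMod p) : ‖e a l‖ ≤ 2 * Real.pi * nrm (a * l) := by
  have hp : (0 : ℝ) < (p : ℝ) := by exact_mod_cast (Fact.out : p.Prime).pos
  have h1 : z a l = Complex.exp (Complex.I * ((2 * Real.pi * ((a * l).valMinAbs : ℝ) / p : ℝ) : ℂ)) := by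
    have h2 : a * l = (((a * l).valMinAbs : ℤ) : ZMod p) := (ZMod.coe_valMinAbs _).symm
    unfold z
    rw [h2, ZMod.stdAddChar_coe]
    congr 1
    rw [← h2]
    push_cast
    ring
  unfold e
  rw [h1, norm_sub_rev]
  refine (Real.norm_exp_I_mul_ofReal_sub_one_le).trans ?_
  rw [Real.norm_eq_abs, abs_div, abs_mul, abs_of_nonneg (by positivity : (0 : ℝ) ≤ 2 * Real.pi),
    abs_of_pos hp]
  unfold nrm
  rw [mul_div_assoc]
  refine mul_le_mul_of_nonneg_left ?_ (by positivity)
  apply le_of_eq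
  congr 1
  rw [Nat.cast_natAbs, Int.cast_abs]

theorem norm_z_sub (a l l' : ZMod p) : ‖z a l - z a l'‖ = ‖e a (l - l')‖ := by
  have h : z a l = z a l' * z a (l - l') := by
    rw [← z_add_right]; congr 1; ring
  rw [h]
  have h2 : z a l' * z a (l - l') - z a l' = - (z a l' * e a (l - l')) := by
    unfold e; ring
  rw [h2, norm_neg, norm_mul, norm_z, one_mul]

section cells

variable {Ω : Type} [Fintype Ω] (w : Ω → ℝ) (hw : ∀ l, 0 < w l)

include hw

private theorem cprob_pos0 (F : Setoid Ω) (l : Ω) : 0 < cprob w F l := by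
  classical
  unfold cprob csum
  refine sum_pos ?_ ⟨l, mem_filter.mpr ⟨mem_univ _, F.refl l⟩⟩
  intro l' _
  rw [mul_one]
  exact hw _

omit hw in
private theorem cprob_congr0 (F : Setoid Ω) {l l' : Ω} (h : F.r l l') : cprob w F l = cprob w F l' := by
  classical
  unfold cprob csum
  refine sum_congr ?_ (fun _ _ => rfl)
  ext l''
  simp only [mem_filter, mem_univ, true_and]
  exact ⟨fun h1 => F.trans h1 h, fun h1 => F.trans h1 (F.symm h)⟩

omit hw in
/-- the conditional expectation is self adjoint -/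
private theorem cexp_adj0 (F : Setoid Ω) (f g : Ω → ℝ) :
    ∑ l, w l * (f l * cexp w F g l) = ∑ l, w l * (cexp w F f l * g l) := by
  classical
  have h1 : ∀ l, w l * (f l * cexp w F g l) =
      ∑ l', if F.r l' l then w l * f l * (w l' * g l') / cprob w F l else 0 := by
    intro l
    unfold cexp csum
    rw [sum_filter, sum_div, mul_sum, mul_sum]
    refine sum_congr rfl fun l' _ => ?_
    split_ifs <;> ring
  have h2 : ∀ l, w l * (cexp w F f l * g l) =
      ∑ l', if F.r l' l then w l' * f l' * (w l * g l) / cprob w F l else 0 := by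
    intro l
    unfold cexp csum
    rw [sum_filter, sum_div, sum_mul, mul_sum]
    refine sum_congr rfl fun l' _ => ?_
    split_ifs <;> ring
  rw [sum_congr rfl (fun l _ => h1 l), sum_congr rfl (fun l _ => h2 l), sum_comm]
  refine sum_congr rfl fun l _ => sum_congr rfl fun l' _ => ?_
  by_cases h : F.r l' l
  · rw [if_pos h, if_pos (F.symm h), cprob_congr0 w F h]
  · rw [if_neg h, if_neg (fun h' => h (F.symm h'))]

/-- the conditional expectation of a function which varies little on the cells -/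
private theorem abs_sub_cexp0 (F : Setoid Ω) (f : Ω → ℝ) (δ : ℝ)
    (h : ∀ l l', F.r l l' → |f l - f l'| ≤ δ) (l : Ω) : |f l - cexp w F f l| ≤ δ := by
  classical
  have hpos := cprob_pos0 w hw F l
  have h1 : f l - cexp w F f l = (∑ l' ∈ univ.filter (fun l' => F.r l' l), w l' * (f l - f l')) /
      cprob w F l := by
    rw [eq_div_iff hpos.ne', sub_mul]
    unfold cexp
    rw [div_mul_cancel₀ _ hpos.ne']
    unfold cprob csum
    simp only [mul_one, mul_sub, sum_sub_distrib]
    rw [mul_sum]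
    congr 1
    exact sum_congr rfl fun _ _ => mul_comm _ _
  rw [h1, abs_div, abs_of_pos hpos, div_le_iff₀ hpos]
  refine (abs_sum_le_sum_abs _ _).trans ?_
  unfold cprob csum
  rw [mul_sum]
  refine sum_le_sum ?_
  intro l' hl'
  rw [mem_filter] at hl'
  rw [mul_one, abs_mul, abs_of_pos (hw l'), mul_comm δ]
  exact mul_le_mul_of_nonneg_left (h l l' (F.symm hl'.2)) (hw l').le

end cells

namespace Lev

variable (v : Lev p)

private theorem E_mono0 {f g : ZMod p → ℝ} (h : ∀ l, f l ≤ g l) : v.E f ≤ v.E g :=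
  sum_le_sum fun l _ => mul_le_mul_of_nonneg_left (h l) (om_pos _ l).le

private theorem E_nonneg0 {f : ZMod p → ℝ} (h : ∀ l, 0 ≤ f l) : 0 ≤ v.E f :=
  sum_nonneg fun l _ => mul_nonneg (om_pos _ l).le (h l)

private theorem E_add0 (f g : ZMod p → ℝ) : v.E (fun l => f l + g l) = v.E f + v.E g := by
  unfold E Ex
  rw [← sum_add_distrib]
  exact sum_congr rfl fun l _ => by ring

private theorem E_sub0 (f g : ZMod p → ℝ) : v.E (fun l => f l - g l) = v.E f - v.E g := by
  unfold E Ex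
  rw [← sum_sub_distrib]
  exact sum_congr rfl fun l _ => by ring

private theorem E_smul0 (c : ℝ) (f : ZMod p → ℝ) : v.E (fun l => c * f l) = c * v.E f := by
  unfold E Ex
  rw [mul_sum]
  exact sum_congr rfl fun l _ => by ring

private theorem E_const0 (c : ℝ) : v.E (fun _ => c) = c := by
  unfold E Ex
  rw [← sum_mul, (isLaw_om _).2, one_mul]

private theorem E_abs0 (f : ZMod p → ℝ) : |v.E f| ≤ v.E (fun l => |f l|) := by
  unfold E Ex
  refine (abs_sum_le_sum_abs _ _).trans (le_of_eq ?_)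
  exact sum_congr rfl fun l _ => by rw [abs_mul, abs_of_pos (om_pos _ l)]

private theorem E_cs0 (f g : ZMod p → ℝ) :
    v.E (fun l => f l * g l) ^ 2 ≤ v.E (fun l => f l ^ 2) * v.E (fun l => g l ^ 2) := by
  have h := Finset.sum_mul_sq_le_sq_mul_sq univ (fun l => √(om v.I l) * f l)
    (fun l => √(om v.I l) * g l)
  have h1 : ∀ l, √(om v.I l) * f l * (√(om v.I l) * g l) = om v.I l * (f l * g l) := by
    intro l
    have := Real.mul_self_sqrt (om_pos v.I l).le
    calc √(om v.I l) * f l * (√(om v.I l) * g l) = (√(om v.I l) * √(om v.I l)) * (f l * g l) := by ring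
      _ = _ := by rw [this]
  have h2 : ∀ (f : ZMod p → ℝ) l, (√(om v.I l) * f l) ^ 2 = om v.I l * (f l) ^ 2 := by
    intro f l
    rw [mul_pow, Real.sq_sqrt (om_pos v.I l).le]
  simp only [h1, h2] at h
  exact h

theorem E_u_eq (g : ZMod p) : v.E (u g) = v.L * v.dist g ^ 2 := by
  have hL := v.L_pos
  have h0 : 0 ≤ v.E (u g) := v.E_nonneg0 (fun l => u_nonneg g l)
  unfold dist
  rw [Real.sq_sqrt (div_nonneg h0 hL.le)]
  field_simp

theorem dist_nonneg' (g : ZMod p) : 0 ≤ v.dist g := Real.sqrt_nonneg _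

theorem E_norm_sq (g : ZMod p) : v.E (fun l => ‖e g l‖ ^ 2) = 2 * v.L * v.dist g ^ 2 := by
  simp only [norm_e_sq]
  rw [v.E_smul0 2 (u g), v.E_u_eq]
  ring

theorem E_norm_mul_le (g h : ZMod p) :
    v.E (fun l => ‖e g l‖ * ‖e h l‖) ≤ 2 * v.L * (v.dist g * v.dist h) := by
  have hL := v.L_pos
  have h1 := v.E_cs0 (fun l => ‖e g l‖) (fun l => ‖e h l‖)
  rw [v.E_norm_sq, v.E_norm_sq] at h1
  have h2 : 0 ≤ 2 * v.L * (v.dist g * v.dist h) :=
    mul_nonneg (by linarith) (mul_nonneg (v.dist_nonneg' g) (v.dist_nonneg' h))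
  refine abs_le_of_sq_le_sq' ?_ h2 |>.2
  calc v.E (fun l => ‖e g l‖ * ‖e h l‖) ^ 2 ≤ _ := h1
    _ = (2 * v.L * (v.dist g * v.dist h)) ^ 2 := by ring

theorem dist_zero : v.dist 0 = 0 := by
  unfold dist
  have : v.E (u 0) = 0 := by
    unfold E Ex
    exact sum_eq_zero fun l _ => by rw [u_zero, mul_zero]
  rw [this, zero_div, Real.sqrt_zero]

theorem dist_neg (g : ZMod p) : v.dist (-g) = v.dist g := by
  unfold dist
  have : v.E (u (-g)) = v.E (u g) := by
    unfold E Ex
    exact sum_congr rfl fun l _ => by rw [u_neg]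
  rw [this]

theorem dist_add (g g' : ZMod p) : v.dist (g + g') ≤ v.dist g + v.dist g' := by
  have hL := v.L_pos
  have h1 : v.E (fun l => ‖e (g + g') l‖ ^ 2) ≤
      v.E (fun l => ‖e g l‖ ^ 2) + v.E (fun l => ‖e g' l‖ ^ 2) +
        2 * v.E (fun l => ‖e g l‖ * ‖e g' l‖) := by
    rw [← v.E_add0, ← v.E_smul0, ← v.E_add0]
    apply v.E_mono0
    intro l
    have h2 := norm_e_add g g' l
    have h3 := norm_nonneg (e (g + g') l)
    have h4 : ‖e (g + g') l‖ ^ 2 ≤ (‖e g l‖ + ‖e g' l‖) ^ 2 := pow_le_pow_left₀ h3 h2 2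
    calc ‖e (g + g') l‖ ^ 2 ≤ (‖e g l‖ + ‖e g' l‖) ^ 2 := h4
      _ = _ := by ring
  rw [v.E_norm_sq, v.E_norm_sq, v.E_norm_sq] at h1
  have h5 := v.E_norm_mul_le g g'
  have h6 : v.dist (g + g') ^ 2 ≤ (v.dist g + v.dist g') ^ 2 := by
    have h7 : 2 * v.L * v.dist (g + g') ^ 2 ≤ 2 * v.L * (v.dist g + v.dist g') ^ 2 := by nlinarith
    exact le_of_mul_le_mul_left h7 (by linarith)
  exact abs_le_of_sq_le_sq' h6 (add_nonneg (v.dist_nonneg' g) (v.dist_nonneg' g')) |>.2

theorem kap_nonneg (F : Setoid (ZMod p)) (x : ZMod p) : 0 ≤ v.kap F x := by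
  have hL := v.L_pos
  unfold kap
  refine mul_nonneg (inv_nonneg.mpr hL.le) (add_nonneg ?_ ?_)
  · exact v.E_nonneg0 fun l => sq_nonneg _
  · exact v.E_nonneg0 fun l => le_max_right _ _

/-- variation of a function of a character on a cell -/
private theorem cell_var0 (F : Setoid (ZMod p)) (g : ZMod p) (l l' : ZMod p) (h : F.r l l') :
    ‖z g l - z g l'‖ ≤ 7 * N F g := by
  have hN := lst_N_nonneg F g
  rw [norm_z_sub]
  refine (norm_e_le_nrm g (l - l')).trans ?_
  have h1 : nrm (g * (l - l')) ≤ N F g := lst_le_N h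
  have h2 : 2 * Real.pi ≤ 7 := by
    have := Real.pi_lt_d2
    linarith
  calc 2 * Real.pi * nrm (g * (l - l')) ≤ 7 * nrm (g * (l - l')) :=
        mul_le_mul_of_nonneg_right h2 (nrmL_nonneg _)
    _ ≤ 7 * N F g := mul_le_mul_of_nonneg_left h1 (by norm_num)

private theorem u_var0 (F : Setoid (ZMod p)) (g : ZMod p) (l l' : ZMod p) (h : F.r l l') :
    |u g l - u g l'| ≤ 7 * N F g := by
  refine le_trans ?_ (cell_var0 F g l l' h)
  have h1 := Complex.abs_re_le_norm (z g l - z g l')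
  rw [Complex.sub_re] at h1
  unfold u
  have h2 : 1 - (z g l).re - (1 - (z g l').re) = -((z g l).re - (z g l').re) := by ring
  rw [h2, abs_neg]
  exact h1

private theorem s_var0 (F : Setoid (ZMod p)) (g : ZMod p) (l l' : ZMod p) (h : F.r l l') :
    |s g l - s g l'| ≤ 7 * N F g := by
  refine le_trans ?_ (cell_var0 F g l l' h)
  have h1 := Complex.abs_im_le_norm (z g l - z g l')
  rw [Complex.sub_im] at h1
  exact h1

/-- numeric end of (S5) -/
private theorem conf_num0 {t D L : ℝ} (ht : 0 < t) (ht1 : t ≤ 1 / 1024) (hD : 0 ≤ D) (hL : L ≤ 1 / 10 ^ 8)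
    (h : D ^ 2 ≤ 18 * t ^ 2 + 4 * t ^ 2 * D + 8 * L * D ^ 2 + 3 / 2 * t * D) : D ≤ 15 * t := by
  by_contra hc
  push Not at hc
  have h1 : 0 < D := by nlinarith
  have h2 : 8 * L * D ^ 2 ≤ 1 / 4 * D ^ 2 := mul_le_mul_of_nonneg_right (by linarith) (sq_nonneg D)
  have h3 : 18 * t ^ 2 ≤ 2 * (t * D) := by nlinarith
  have h4 : 4 * t ^ 2 * D ≤ 1 * (t * D) := by
    have : 4 * t ^ 2 * D = (4 * t) * (t * D) := by ring
    rw [this]
    exact mul_le_mul_of_nonneg_right (by linarith) (by positivity)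
  have h5 : 15 * (t * D) ≤ D ^ 2 := by nlinarith
  have h6 : 0 < t * D := by positivity
  nlinarith

/-- (S5) for one value of `e`: here `small` is `exp(-e^(-1/8)) ≤ e L` for `e = σ^40` -/
theorem conf (F : Setoid (ZMod p)) (x : ZMod p) (hx : x ∈ v.supp) (σ : ℝ) (h0 : 0 < σ)
    (h1 : σ ≤ 1 / 2) (small : Real.exp (-(σ⁻¹) ^ 5) ≤ σ ^ 40 * v.L) (hk : v.kap F x ≤ σ ^ 40)
    (g g' : ZMod p) (hA : x + g + g' ∈ v.A) (hg : v.dist g ≤ σ ^ 40)
    (hN : N F g' ≤ Real.exp (-(σ⁻¹) ^ 5)) : v.dist (g + g') ≤ σ ^ 8 := by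
  classical
  have hL := v.L_pos
  have hLle := v.L_le
  set w := om v.I with hw
  have hwpos : ∀ l, 0 < w l := fun l => om_pos v.I l
  set t := σ ^ 20 with ht
  have ht0 : 0 < t := by positivity
  have ht40 : σ ^ 40 = t ^ 2 := by rw [ht, ← pow_mul]
  have hσ1 : σ ≤ 1 := by linarith
  have htle : t ≤ 1 / 1024 := by
    calc t ≤ σ ^ 10 := pow_le_pow_of_le_one h0.le hσ1 (by norm_num)
      _ ≤ (1 / 2) ^ 10 := pow_le_pow_left₀ h0.le h1 10
      _ = 1 / 1024 := by norm_num
  rw [ht40] at small hk hg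
  set ν := N F g' with hν
  have hν0 : 0 ≤ ν := lst_N_nonneg F g'
  have hνle : ν ≤ t ^ 2 * v.L := hN.trans small
  set D := v.dist g' with hD
  have hD0 : 0 ≤ D := v.dist_nonneg' g'
  have hJx : 0 < v.J x := (mem_filter.mp hx).2
  have hEx : v.E (u x) = v.L := v.kkt_eq x hJx
  -- dist x = 1
  have hdx : v.dist x = 1 := by
    unfold dist
    rw [hEx, div_self hL.ne', Real.sqrt_one]
  have hgt : v.dist g ≤ t ^ 2 := hg
  have hg0 : 0 ≤ v.dist g := v.dist_nonneg' g
  have ht2 : t ^ 2 ≤ 1 := by nlinarith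
  -- E u_q
  have hq : v.L - 2 * (t ^ 2 * v.L) ≤ v.E (u (x + g)) := by
    have h2 : v.dist x ≤ v.dist (x + g) + v.dist (-g) := by
      have := v.dist_add (x + g) (-g)
      rwa [add_neg_cancel_right] at this
    rw [hdx, v.dist_neg] at h2
    rw [v.E_u_eq]
    have h3 : 1 - t ^ 2 ≤ v.dist (x + g) := by linarith
    have h4 : (1 - t ^ 2) ^ 2 ≤ v.dist (x + g) ^ 2 := pow_le_pow_left₀ (by linarith) h3 2
    nlinarith
  have ha : v.E (u (x + g + g')) ≤ v.L := v.kkt _ hA
  -- the identity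
  have hid : v.E (u (x + g + g')) = v.E (u (x + g)) + v.E (u g') -
      v.E (fun l => u (x + g) l * u g' l) + v.E (fun l => s (x + g) l * s g' l) := by
    have h2 : v.E (u (x + g + g')) = v.E (fun l => ((u (x + g) l + u g' l) -
        u (x + g) l * u g' l) + s (x + g) l * s g' l) := by
      unfold E Ex
      exact sum_congr rfl fun l _ => by rw [u_add (x + g) g' l]
    rw [h2, v.E_add0 (fun l => (u (x + g) l + u g' l) - u (x + g) l * u g' l)
      (fun l => s (x + g) l * s g' l), v.E_sub0 (fun l => u (x + g) l + u g' l)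
      (fun l => u (x + g) l * u g' l), v.E_add0]
  have hV : v.E (u g') = v.L * D ^ 2 := v.E_u_eq g'
  -- comparison of q and x
  have hLgD : 2 * v.L * (v.dist g * D) ≤ 2 * v.L * (t ^ 2 * D) :=
    mul_le_mul_of_nonneg_left (mul_le_mul_of_nonneg_right hgt hD0) (by linarith)
  have hc1 : v.E (fun l => u (x + g) l * u g' l) ≤
      v.E (fun l => u x l * u g' l) + 2 * v.L * (t ^ 2 * D) := by
    have h2 : v.E (fun l => u (x + g) l * u g' l) ≤
        v.E (fun l => u x l * u g' l + ‖e g l‖ * ‖e g' l‖) := by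
      apply v.E_mono0
      intro l
      have h3 : u (x + g) l - u x l ≤ ‖e g l‖ := by
        have h4 := Complex.abs_re_le_norm (e (x + g) l - e x l)
        rw [norm_e_sub, add_sub_cancel_left, Complex.sub_re, e_re, e_re] at h4
        exact (le_abs_self _).trans h4
      have h5 := u_le_norm_e g' l
      have h6 := u_nonneg g' l
      have h7 := norm_nonneg (e g l)
      have h8 : (u (x + g) l - u x l) * u g' l ≤ ‖e g l‖ * ‖e g' l‖ :=
        (mul_le_mul_of_nonneg_right h3 h6).trans (mul_le_mul_of_nonneg_left h5 h7)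
      linarith
    rw [v.E_add0 (fun l => u x l * u g' l) (fun l => ‖e g l‖ * ‖e g' l‖)] at h2
    have h9 := v.E_norm_mul_le g g'
    linarith
  have hc2 : -v.E (fun l => s (x + g) l * s g' l) ≤
      -v.E (fun l => s x l * s g' l) + 2 * v.L * (t ^ 2 * D) := by
    have h2 : v.E (fun l => s x l * s g' l) ≤
        v.E (fun l => s (x + g) l * s g' l + ‖e g l‖ * ‖e g' l‖) := by
      apply v.E_mono0
      intro l
      have h3 : |s (x + g) l - s x l| ≤ ‖e g l‖ := by
        have h4 := Complex.abs_im_le_norm (e (x + g) l - e x l)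
        rw [norm_e_sub, add_sub_cancel_left, Complex.sub_im, e_im, e_im] at h4
        have h5 : -s (x + g) l - -s x l = -(s (x + g) l - s x l) := by ring
        rwa [h5, abs_neg] at h4
      have h5 := abs_s_le_norm_e g' l
      have h8 : |(s (x + g) l - s x l) * s g' l| ≤ ‖e g l‖ * ‖e g' l‖ := by
        rw [abs_mul]
        exact mul_le_mul h3 h5 (abs_nonneg _) (norm_nonneg _)
      have h9 := (abs_le.mp h8).1
      linarith
    rw [v.E_add0 (fun l => s (x + g) l * s g' l) (fun l => ‖e g l‖ * ‖e g' l‖)] at h2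
    have h9 := v.E_norm_mul_le g g'
    linarith
  -- the two parts of kap
  have hkap : v.E (fun l => (cexp w F (s x) l) ^ 2) + v.E (fun l => max (cexp w F (u x) l - 8 * v.L) 0) ≤
      t ^ 2 * v.L := by
    unfold kap at hk
    rw [inv_mul_le_iff₀ hL] at hk
    linarith
  have hk1 : v.E (fun l => (cexp w F (s x) l) ^ 2) ≤ t ^ 2 * v.L := by
    have := v.E_nonneg0 (f := fun l => max (cexp w F (u x) l - 8 * v.L) 0) (fun l => le_max_right _ _)
    linarith
  have hk2 : v.E (fun l => max (cexp w F (u x) l - 8 * v.L) 0) ≤ t ^ 2 * v.L := by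
    have := v.E_nonneg0 (f := fun l => (cexp w F (s x) l) ^ 2) (fun l => sq_nonneg _)
    linarith
  -- E u_x u_d
  have hc3 : v.E (fun l => u x l * u g' l) ≤ 8 * v.L * (v.L * D ^ 2) + 2 * (t ^ 2 * v.L) +
      7 * ν * v.L := by
    have h2 : v.E (fun l => u x l * u g' l) ≤
        v.E (fun l => u x l * cexp w F (u g') l + 7 * ν * u x l) := by
      apply v.E_mono0
      intro l
      have h3 := abs_sub_cexp0 w hwpos F (u g') (7 * ν) (fun l l' h => u_var0 F g' l l' h) l
      have h4 := (abs_le.mp h3).2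
      have h5 := u_nonneg x l
      have h6 : u x l * (u g' l - cexp w F (u g') l) ≤ u x l * (7 * ν) :=
        mul_le_mul_of_nonneg_left h4 h5
      linarith
    rw [v.E_add0 (fun l => u x l * cexp w F (u g') l) (fun l => 7 * ν * u x l),
      v.E_smul0 (7 * ν) (u x), hEx] at h2
    have h3 : v.E (fun l => u x l * cexp w F (u g') l) = v.E (fun l => cexp w F (u x) l * u g' l) :=
      cexp_adj0 w F (u x) (u g')
    have h4 : v.E (fun l => cexp w F (u x) l * u g' l) ≤
        v.E (fun l => 8 * v.L * u g' l + 2 * max (cexp w F (u x) l - 8 * v.L) 0) := by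
      apply v.E_mono0
      intro l
      have h5 := u_nonneg g' l
      have h6 := u_le_two g' l
      have h7 : cexp w F (u x) l ≤ 8 * v.L + max (cexp w F (u x) l - 8 * v.L) 0 := by
        have := le_max_left (cexp w F (u x) l - 8 * v.L) 0
        linarith
      have h8 : 0 ≤ max (cexp w F (u x) l - 8 * v.L) 0 := le_max_right _ _
      calc cexp w F (u x) l * u g' l ≤ (8 * v.L + max (cexp w F (u x) l - 8 * v.L) 0) * u g' l :=
            mul_le_mul_of_nonneg_right h7 h5
        _ = 8 * v.L * u g' l + max (cexp w F (u x) l - 8 * v.L) 0 * u g' l := by ring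
        _ ≤ 8 * v.L * u g' l + 2 * max (cexp w F (u x) l - 8 * v.L) 0 := by nlinarith
    rw [v.E_add0 (fun l => 8 * v.L * u g' l) (fun l => 2 * max (cexp w F (u x) l - 8 * v.L) 0),
      v.E_smul0 (8 * v.L) (u g'), v.E_smul0 2 (fun l => max (cexp w F (u x) l - 8 * v.L) 0), hV] at h4
    linarith
  -- E s_x s_d
  have hc4 : -v.E (fun l => s x l * s g' l) ≤ 3 / 2 * (t * v.L * D) + 7 * ν := by
    have h2 : -v.E (fun l => s x l * s g' l) ≤
        -v.E (fun l => s x l * cexp w F (s g') l) + 7 * ν := by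
      have h3 : v.E (fun l => s x l * cexp w F (s g') l) ≤
          v.E (fun l => s x l * s g' l + 7 * ν) := by
        apply v.E_mono0
        intro l
        have h4 := abs_sub_cexp0 w hwpos F (s g') (7 * ν) (fun l l' h => s_var0 F g' l l' h) l
        have h5 : |s x l| ≤ 1 := by
          have := s_sq x l
          have h6 : s x l ^ 2 ≤ 1 := by nlinarith [sq_nonneg (u x l - 1)]
          exact abs_le_one_iff_mul_self_le_one.mpr (by nlinarith)
        have h7 : |s x l * (s g' l - cexp w F (s g') l)| ≤ 7 * ν := by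
          rw [abs_mul]
          calc |s x l| * |s g' l - cexp w F (s g') l| ≤ 1 * (7 * ν) :=
                mul_le_mul h5 h4 (abs_nonneg _) (by norm_num)
            _ = 7 * ν := one_mul _
        have h8 := (abs_le.mp h7).1
        linarith
      rw [v.E_add0 (fun l => s x l * s g' l) (fun _ => 7 * ν), v.E_const0] at h3
      linarith
    have h3 : v.E (fun l => s x l * cexp w F (s g') l) = v.E (fun l => cexp w F (s x) l * s g' l) :=
      cexp_adj0 w F (s x) (s g')
    have h4 := v.E_cs0 (cexp w F (s x)) (s g')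
    have h5 : v.E (fun l => s g' l ^ 2) ≤ 2 * (v.L * D ^ 2) := by
      rw [← hV, ← v.E_smul0 2 (u g')]
      exact v.E_mono0 fun l => s_sq_le g' l
    have h6 : 0 ≤ v.E (fun l => (cexp w F (s x) l) ^ 2) := v.E_nonneg0 fun l => sq_nonneg _
    have h7 : v.E (fun l => cexp w F (s x) l * s g' l) ^ 2 ≤ (3 / 2 * (t * v.L * D)) ^ 2 := by
      calc v.E (fun l => cexp w F (s x) l * s g' l) ^ 2 ≤
            v.E (fun l => (cexp w F (s x) l) ^ 2) * v.E (fun l => s g' l ^ 2) := h4
        _ ≤ (t ^ 2 * v.L) * (2 * (v.L * D ^ 2)) :=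
            mul_le_mul hk1 h5 (v.E_nonneg0 fun l => sq_nonneg _) (by positivity)
        _ ≤ (3 / 2 * (t * v.L * D)) ^ 2 := by nlinarith [sq_nonneg (t * v.L * D)]
    have h8 := (abs_le_of_sq_le_sq' h7 (by positivity)).1
    rw [h3] at h2
    linarith
  -- conclusion
  have hfin : v.L * D ^ 2 ≤ v.L * (18 * t ^ 2 + 4 * t ^ 2 * D + 8 * v.L * D ^ 2 + 3 / 2 * t * D) := by
    have h2 : 7 * ν * v.L ≤ 7 * (t ^ 2 * v.L) := by
      have h3 : ν * v.L ≤ ν * 1 := mul_le_mul_of_nonneg_left (by linarith) hν0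
      linarith
    rw [hV] at hid
    have h4 : v.L * (18 * t ^ 2 + 4 * t ^ 2 * D + 8 * v.L * D ^ 2 + 3 / 2 * t * D) =
        18 * (t ^ 2 * v.L) + 2 * (2 * v.L * (t ^ 2 * D)) + 8 * v.L * (v.L * D ^ 2) +
          3 / 2 * (t * v.L * D) := by ring
    rw [h4]
    linarith
  have hD15 : D ≤ 15 * t := conf_num0 ht0 htle hD0 hLle (le_of_mul_le_mul_left hfin hL)
  have hend : t ≤ σ ^ 8 / 16 := by
    have h2 : t = σ ^ 8 * σ ^ 12 := by rw [ht, ← pow_add]
    have h3 : σ ^ 12 ≤ 1 / 16 := by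
      calc σ ^ 12 ≤ σ ^ 4 := pow_le_pow_of_le_one h0.le hσ1 (by norm_num)
        _ ≤ (1 / 2) ^ 4 := pow_le_pow_left₀ h0.le h1 4
        _ = 1 / 16 := by norm_num
    rw [h2]
    have : 0 < σ ^ 8 := by positivity
    nlinarith
  have ht2' : t ^ 2 ≤ t := by nlinarith
  calc v.dist (g + g') ≤ v.dist g + v.dist g' := v.dist_add g g'
    _ ≤ t ^ 2 + 15 * t := add_le_add hgt hD15
    _ ≤ σ ^ 8 := by linarith

end Lev

end Pool.MPbe0380.Gb
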