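import Pool.Agent.Lib.MP_be0380_co.G.Cond

/-!
# be0380, Gibbs system, module G6: lists and the seminorm `N`
-/

set_option autoImplicit false

open Finset

namespace Pool.MPbe0380.Gb

variable {p : ℕ} [Fact p.Prime]

theorem nrmL_zero : nrm (0 : ZMod p) = 0 := by
  unfold nrm
  simp

theorem nrmL_nonneg (a : ZMod p) : 0 ≤ nrm a := by
  unfold nrm
  positivity

theorem nrmL_neg (a : ZMod p) : nrm (-a) = nrm a := by
  unfold nrm
  rw [ZMod.natAbs_valMinAbs_neg]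

theorem nrmL_add_le (a b : ZMod p) : nrm (a + b) ≤ nrm a + nrm b := by
  unfold nrm
  rw [← add_div]
  refine div_le_div_of_nonneg_right ?_ (Nat.cast_nonneg p)
  have h1 := ZMod.natAbs_valMinAbs_add_le a b
  have h2 := Int.natAbs_add_le a.valMinAbs b.valMinAbs
  exact_mod_cast h1.trans h2

/-- the norm of a residue is at most that of every integer in the class -/
theorem nrmL_le_of_int (y : ℤ) (a : ZMod p) (h : (y : ZMod p) = a) : nrm a ≤ (y.natAbs : ℝ) / p := by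
  unfold nrm
  refine div_le_div_of_nonneg_right ?_ (Nat.cast_nonneg p)
  have h1 := ZMod.natAbs_min_of_le_div_two p a.valMinAbs y (by rw [ZMod.coe_valMinAbs, h])
    (ZMod.natAbs_valMinAbs_le a)
  exact_mod_cast h1

namespace Lev

theorem lst_N_le {F : Setoid (ZMod p)} {g : ZMod p} {b : ℝ}
    (h : ∀ l l', F.r l l' → nrm (g * (l - l')) ≤ b) : N F g ≤ b := by
  classical
  unfold N
  refine Finset.sup'_le _ _ ?_
  rintro ⟨l, l'⟩ he
  rw [mem_filter] at he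
  exact h l l' he.2

theorem lst_le_N {F : Setoid (ZMod p)} {g : ZMod p} {l l' : ZMod p} (h : F.r l l') :
    nrm (g * (l - l')) ≤ N F g := by
  classical
  unfold N
  exact Finset.le_sup' (fun e : ZMod p × ZMod p => nrm (g * (e.1 - e.2)))
    (b := (l, l')) (mem_filter.mpr ⟨mem_univ _, h⟩)

theorem lst_N_nonneg (F : Setoid (ZMod p)) (g : ZMod p) : 0 ≤ N F g :=
  (nrmL_nonneg _).trans (lst_le_N (F := F) (g := g) (l := 0) (l' := 0) (F.refl 0))

theorem N_zero (F : Setoid (ZMod p)) : N F 0 = 0 := by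
  apply le_antisymm
  · apply lst_N_le
    intro l l' _
    rw [zero_mul, nrmL_zero]
  · exact lst_N_nonneg F 0

theorem N_neg (F : Setoid (ZMod p)) (g : ZMod p) : N F (-g) = N F g := by
  have key : ∀ g : ZMod p, N F (-g) ≤ N F g := by
    intro g
    apply lst_N_le
    intro l l' h
    rw [neg_mul, nrmL_neg]
    exact lst_le_N h
  apply le_antisymm
  · exact key g
  · have := key (-g)
    rwa [neg_neg] at this

theorem N_add (F : Setoid (ZMod p)) (g g' : ZMod p) : N F (g + g') ≤ N F g + N F g' := by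
  apply lst_N_le
  intro l l' h
  rw [add_mul]
  exact (nrmL_add_le _ _).trans (add_le_add (lst_le_N h) (lst_le_N h))

theorem N_mono {F F' : Setoid (ZMod p)} (h : F' ≤ F) (g : ZMod p) : N F' g ≤ N F g := by
  apply lst_N_le
  intro l l' hl
  exact lst_le_N (h hl)

theorem N_lst (E : Finset (ZMod p × ℕ)) : ∀ e ∈ E, N (lst E) e.1 ≤ (1 / 2 : ℝ) ^ e.2 := by
  intro e he
  have hp : 0 < p := (Fact.out : p.Prime).pos
  have hpR : (0 : ℝ) < (p : ℝ) := by exact_mod_cast hp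
  apply lst_N_le
  intro l l' hl
  have h1 : (2 ^ e.2 * (e.1 * l).val) / p = (2 ^ e.2 * (e.1 * l').val) / p := by
    have := congrFun (Setoid.ker_def.mp hl) ⟨e, he⟩
    exact this
  set x := (e.1 * l).val with hx
  set y := (e.1 * l').val with hy
  have h2 := Nat.div_add_mod (2 ^ e.2 * x) p
  have h3 := Nat.div_add_mod (2 ^ e.2 * y) p
  have h4 := Nat.mod_lt (2 ^ e.2 * x) hp
  have h5 := Nat.mod_lt (2 ^ e.2 * y) hp
  rw [h1] at h2
  have h6 : nrm (e.1 * (l - l')) ≤ ((((x : ℤ) - (y : ℤ)).natAbs : ℕ) : ℝ) / p := by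
    apply nrmL_le_of_int
    rw [mul_sub]
    push_cast
    rw [hx, hy, ZMod.natCast_zmod_val, ZMod.natCast_zmod_val]
  refine h6.trans ?_
  rw [div_le_iff₀ hpR]
  have h7 : (2 : ℤ) ^ e.2 * |(x : ℤ) - (y : ℤ)| ≤ p := by
    have h2' : (p : ℤ) * (2 ^ e.2 * y / p : ℕ) + ((2 ^ e.2 * x % p : ℕ) : ℤ) = 2 ^ e.2 * (x : ℤ) := by
      exact_mod_cast h2
    have h3' : (p : ℤ) * (2 ^ e.2 * y / p : ℕ) + ((2 ^ e.2 * y % p : ℕ) : ℤ) = 2 ^ e.2 * (y : ℤ) := by
      exact_mod_cast h3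
    have h4' : ((2 ^ e.2 * x % p : ℕ) : ℤ) < p := by exact_mod_cast h4
    have h5' : ((2 ^ e.2 * y % p : ℕ) : ℤ) < p := by exact_mod_cast h5
    have h8 : (0 : ℤ) ≤ ((2 ^ e.2 * x % p : ℕ) : ℤ) := Int.natCast_nonneg _
    have h9 : (0 : ℤ) ≤ ((2 ^ e.2 * y % p : ℕ) : ℤ) := Int.natCast_nonneg _
    have h10 : (2 : ℤ) ^ e.2 * |(x : ℤ) - (y : ℤ)| = |2 ^ e.2 * (x : ℤ) - 2 ^ e.2 * (y : ℤ)| := by
      rw [← mul_sub, abs_mul, abs_of_nonneg (by positivity : (0 : ℤ) ≤ 2 ^ e.2)]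
    rw [h10, abs_le]
    constructor <;> linarith
  have h11 : (((((x : ℤ) - (y : ℤ)).natAbs : ℕ) : ℝ)) = ((|(x : ℤ) - (y : ℤ)| : ℤ) : ℝ) :=
    Nat.cast_natAbs _
  have h12 : (2 : ℝ) ^ e.2 * ((|(x : ℤ) - (y : ℤ)| : ℤ) : ℝ) ≤ p := by exact_mod_cast h7
  rw [h11]
  have h13 : (1 / 2 : ℝ) ^ e.2 * (p : ℝ) = (p : ℝ) / 2 ^ e.2 := by
    rw [one_div, inv_pow]; field_simp
  rw [h13, le_div_iff₀ (by positivity), mul_comm]
  exact h12

variable (v : Lev p)

theorem cost_lst (E : Finset (ZMod p × ℕ)) : v.cost (lst E) ≤ ∑ e ∈ E, ((e.2 : ℝ) + 2) := by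
  have hp : 0 < p := (Fact.out : p.Prime).pos
  have hlt : ∀ (l : ZMod p) (e : E), (2 ^ (e : ZMod p × ℕ).2 * ((e : ZMod p × ℕ).1 * l).val) / p <
      2 ^ (e : ZMod p × ℕ).2 := by
    intro l e
    rw [Nat.div_lt_iff_lt_mul hp]
    exact Nat.mul_lt_mul_of_pos_left (ZMod.val_lt _) (by positivity)
  let g : ZMod p → ((e : E) → Fin (2 ^ (e : ZMod p × ℕ).2)) := fun l e =>
    ⟨(2 ^ (e : ZMod p × ℕ).2 * ((e : ZMod p × ℕ).1 * l).val) / p, hlt l e⟩
  have hker : lst E = Setoid.ker g := by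
    ext l l'
    unfold lst
    rw [Setoid.ker_def, Setoid.ker_def]
    constructor
    · intro h
      funext e
      exact Fin.ext (congrFun h e)
    · intro h
      funext e
      exact congrArg Fin.val (congrFun h e)
  have : Nonempty ((e : E) → Fin (2 ^ (e : ZMod p × ℕ).2)) := ⟨g 0⟩
  unfold cost
  rw [hker]
  refine (cent_ker_le (om v.I) (om_pos _) (isLaw_om _).2 g).trans ?_
  have hcard : Fintype.card ((e : E) → Fin (2 ^ (e : ZMod p × ℕ).2)) =
      ∏ e : E, 2 ^ (e : ZMod p × ℕ).2 := by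
    rw [Fintype.card_pi]
    simp
  rw [hcard]
  push_cast
  rw [Real.log_prod]
  · have h1 : ∀ e : E, Real.log ((2 : ℝ) ^ (e : ZMod p × ℕ).2) ≤ ((e : ZMod p × ℕ).2 : ℝ) + 2 := by
      intro e
      rw [Real.log_pow]
      have h2 : Real.log 2 ≤ 1 := by
        have := Real.log_two_lt_d9
        linarith
      have h3 : (0 : ℝ) ≤ ((e : ZMod p × ℕ).2 : ℝ) := Nat.cast_nonneg _
      nlinarith
    refine (sum_le_sum (fun e _ => h1 e)).trans ?_
    exact le_of_eq (Finset.sum_coe_sort E (fun e => (e.2 : ℝ) + 2))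
  · intro e _
    positivity

end Lev

end Pool.MPbe0380.Gb
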