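import Mathlib

/-!
# be0380: module G9, numeric lemma

`e^(-y) y^8` is decreasing for `y ≥ 8`, with `y = σ^(-5)`.
-/

set_option autoImplicit false

open Finset

namespace Pool.MPbe0380.Gb

/-- `e^(-y) y^8` is decreasing on `[8, oo)` -/
theorem small_decr {y0 y : ℝ} (h8 : 8 ≤ y0) (h : y0 ≤ y) :
    Real.exp (-y) * y ^ 8 ≤ Real.exp (-y0) * y0 ^ 8 := by
  have hy0 : 0 < y0 := by linarith
  have h1 : y / y0 ≤ Real.exp (y / y0 - 1) := by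
    have := Real.add_one_le_exp (y / y0 - 1)
    linarith
  have h2 : (y / y0) ^ 8 ≤ Real.exp (y - y0) := by
    have hq : 0 ≤ y / y0 := div_nonneg (by linarith) hy0.le
    calc (y / y0) ^ 8 ≤ (Real.exp (y / y0 - 1)) ^ 8 := pow_le_pow_left₀ hq h1 8
      _ = Real.exp (8 * (y / y0 - 1)) := by
          rw [← Real.exp_nat_mul]
          norm_num
      _ ≤ Real.exp (y - y0) := by
          apply Real.exp_le_exp.mpr
          have e1 : y / y0 - 1 = (y - y0) / y0 := by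
            field_simp
          rw [e1]
          have e2 : (y - y0) / y0 ≤ (y - y0) / 8 :=
            div_le_div_of_nonneg_left (by linarith) (by norm_num) h8
          linarith
  have h3 : y ^ 8 = (y / y0) ^ 8 * y0 ^ 8 := by
    rw [div_pow, div_mul_cancel₀]
    positivity
  have h4 : Real.exp (-y) * Real.exp (y - y0) = Real.exp (-y0) := by
    rw [← Real.exp_add]
    congr 1
    ring
  calc Real.exp (-y) * y ^ 8 = Real.exp (-y) * (y / y0) ^ 8 * y0 ^ 8 := by rw [h3]; ring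
    _ ≤ Real.exp (-y) * Real.exp (y - y0) * y0 ^ 8 := by
        apply mul_le_mul_of_nonneg_right _ (by positivity)
        exact mul_le_mul_of_nonneg_left h2 (Real.exp_pos _).le
    _ = Real.exp (-y0) * y0 ^ 8 := by rw [h4]

theorem small_of (B : ℕ) (hB : 2 ≤ B) (L : ℝ) (h : Real.exp (-(B : ℝ) ^ 30) * (B : ℝ) ^ 240 ≤ L)
    (σ : ℝ) (h0 : 0 < σ) (h1 : σ ^ 40 * (B : ℝ) ^ 240 ≤ 1) :
    σ ≤ 1 / 2 ∧ Real.exp (-(σ⁻¹) ^ 5) ≤ σ ^ 40 * L := by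
  have hB2 : (2 : ℝ) ≤ (B : ℝ) := by exact_mod_cast hB
  have hB0 : (0 : ℝ) < (B : ℝ) := by linarith
  -- `σ B^6 ≤ 1`
  have h2 : σ * (B : ℝ) ^ 6 ≤ 1 := by
    have h3 : (σ * (B : ℝ) ^ 6) ^ 40 ≤ 1 ^ 40 := by
      rw [mul_pow, ← pow_mul, one_pow]
      exact h1
    exact le_of_pow_le_pow_left₀ (by norm_num) (by norm_num) h3
  have h64 : (2 : ℝ) ≤ (B : ℝ) ^ 6 := by
    calc (2 : ℝ) ≤ 2 ^ 6 := by norm_num
      _ ≤ (B : ℝ) ^ 6 := pow_le_pow_left₀ (by norm_num) hB2 6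
  refine ⟨by nlinarith, ?_⟩
  have h5 : (B : ℝ) ^ 6 ≤ σ⁻¹ := by
    rw [le_inv_comm₀ (by positivity) h0]
    rw [← one_div]
    rw [le_div_iff₀ (by positivity)]
    exact h2
  have h6 : (B : ℝ) ^ 30 ≤ (σ⁻¹) ^ 5 := by
    calc (B : ℝ) ^ 30 = ((B : ℝ) ^ 6) ^ 5 := by rw [← pow_mul]
      _ ≤ (σ⁻¹) ^ 5 := pow_le_pow_left₀ (by positivity) h5 5
  have h7 : (8 : ℝ) ≤ (B : ℝ) ^ 30 := by
    calc (8 : ℝ) = 2 ^ 3 := by norm_num
      _ ≤ (B : ℝ) ^ 3 := pow_le_pow_left₀ (by norm_num) hB2 3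
      _ ≤ (B : ℝ) ^ 30 := pow_le_pow_right₀ (by linarith) (by norm_num)
  have h8 := small_decr h7 h6
  have h9 : ((B : ℝ) ^ 30) ^ 8 = (B : ℝ) ^ 240 := by rw [← pow_mul]
  have h10 : ((σ⁻¹) ^ 5) ^ 8 = (σ ^ 40)⁻¹ := by rw [← pow_mul, inv_pow]
  rw [h9, h10] at h8
  have h11 : Real.exp (-(σ⁻¹) ^ 5) * (σ ^ 40)⁻¹ ≤ L := h8.trans h
  have h12 : 0 < σ ^ 40 := by positivity
  calc Real.exp (-(σ⁻¹) ^ 5) = σ ^ 40 * (Real.exp (-(σ⁻¹) ^ 5) * (σ ^ 40)⁻¹) := by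
        field_simp
    _ ≤ σ ^ 40 * L := mul_le_mul_of_nonneg_left h11 h12.le

end Pool.MPbe0380.Gb
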