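import Pool.Agent.Lib.MP_be0380_co.M.Machine
import Pool.Agent.Lib.MP_be0380_co.G.Cond
import Pool.Agent.Lib.MP_be0380_co.G.Lst
import Pool.Agent.Lib.MP_be0380_co.G.Conf
import Pool.Agent.Lib.MP_be0380_co.G.Budget
import Pool.Agent.Lib.MP_be0380_co.G.Small

/-!
# be0380: the Gibbs system (2.6): the machine for one level
-/

set_option autoImplicit false

open Finset

namespace Pool.MPbe0380.Gb

variable {p : ℕ} [Fact p.Prime]

theorem gibbs_machine (v : Lev p) (B : ℕ) (h : ℝ) (G0 : Finset (ZMod p))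
    (X0 : ZMod p → Finset (ZMod p)) (Pr : Finset (ZMod p × ZMod p))
    (hB : 2 ≤ B) (small : Real.exp (-(B : ℝ) ^ 30) * (B : ℝ) ^ 240 ≤ v.L) (h_pos : 0 < h)
    (h_le : h ≤ ((B : ℝ) ^ 2400) ^ 10 * v.D) (G0_sub : G0 ⊆ v.supp)
    (m0 : v.m / 3 ≤ ∑ x ∈ G0, v.J x)
    (X0_sub : ∀ x ∈ G0, X0 x ⊆ v.A) (X0_card : ∀ x ∈ G0, ((X0 x).card : ℝ) ≤ h)
    (X0_mem : ∀ x ∈ G0, ∀ c ∈ v.A, v.dist (c - x) * (B : ℝ) ^ 240 ≤ 1 → c ∈ X0 x)
    (base : ∀ x ∈ G0, ∃ F, v.cost F * ((B : ℝ) ^ 2400) ^ 9 ≤ v.D ∧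
      ∀ c ∈ X0 x, ∀ c' ∈ X0 x, Lev.N F (c - c') ≤ (1 / 2 : ℝ) ^ (B ^ 2400))
    (Pr_sub : Pr ⊆ G0 ×ˢ G0) (Pr_symm : ∀ x y, (x, y) ∈ Pr → (y, x) ∈ Pr)
    (Pr_weight : (9 / 10 : ℝ) * (∑ x ∈ G0, v.J x) ^ 2 ≤ ∑ e ∈ Pr, v.J e.1 * v.J e.2)
    (twin : ∀ x y, (x, y) ∈ Pr → ∀ q ∈ v.A, ∀ q' ∈ v.A, v.dist (q - x) * (B : ℝ) ^ 240 ≤ 1 →
      v.dist (q' - y) * (B : ℝ) ^ 240 ≤ 1 → ∃ z : ZMod p, z ≠ 0 ∧ q - z ∈ X0 x ∧ q' + z ∈ X0 y)
    (lift : ∀ x y, (x, y) ∈ Pr → ∃ ψ ψ' : ZMod p → ℝ, Set.InjOn ψ (X0 x) ∧ Set.InjOn ψ' (X0 y) ∧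
      ∀ q q' z, q ∈ X0 x → q - z ∈ X0 x → q' ∈ X0 y → q' + z ∈ X0 y →
        ψ q + ψ' q' = ψ (q - z) + ψ' (q' + z)) : False := by
  have hm : 0 < v.m := v.m_pos
  have hL : 0 < v.L := v.L_pos
  have hD : 0 < v.D := mul_pos hm hL
  have hm0 : 0 < ∑ x ∈ G0, v.J x := by linarith
  have hB1 : (1 : ℝ) ≤ (B : ℝ) := by exact_mod_cast (by omega : 1 ≤ B)
  have hB2 : (2 : ℝ) ≤ (B : ℝ) := by exact_mod_cast hB
  let S : PoolBe0380.M.Sys (ZMod p) :=
    { B := B
      D := v.D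
      h := h
      Ck := 12
      A := v.A
      G0 := G0
      J := v.J
      dist := v.dist
      K := Setoid (ZMod p)
      cost := v.cost
      N := Lev.N
      kap := v.kap
      join := fun F F' => F ⊓ F'
      lst := Lev.lst
      X0 := X0
      Pr := Pr
      D_pos := hD
      h_pos := h_pos
      Ck_nonneg := by norm_num
      G0_sub := G0_sub.trans (filter_subset _ _)
      J_nonneg := fun x _ => v.J_nonneg x
      m0_pos := hm0
      dist_zero := v.dist_zero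
      dist_neg := v.dist_neg
      dist_add := v.dist_add
      N_zero := Lev.N_zero
      N_neg := Lev.N_neg
      N_add := Lev.N_add
      kap_nonneg := fun F x _ => v.kap_nonneg F x
      cost_join := fun F F' => cent_inf _ (om_pos _) (isLaw_om _).2 F F'
      N_join_left := fun F F' g => Lev.N_mono inf_le_left g
      N_join_right := fun F F' g => Lev.N_mono inf_le_right g
      kap_join := by
        intro F F' x _
        unfold Lev.kap
        refine mul_le_mul_of_nonneg_left (add_le_add ?_ ?_) (inv_nonneg.mpr hL.le)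
        · exact cexp_sq_mono (om v.I) (om_pos _) (isLaw_om _).2 inf_le_left (s x)
        · exact cexp_max_mono (om v.I) (om_pos _) (isLaw_om _).2 inf_le_left (u x) (8 * v.L)
      cost_lst := v.cost_lst
      N_lst := Lev.N_lst
      budget := by
        intro F
        refine (v.budget F G0 G0_sub).trans ?_
        have hc : 0 ≤ v.cost F := cent_nonneg _ (om_pos _) (isLaw_om _).2 F
        have : 12 * (v.cost F / v.D) * ∑ x ∈ G0, v.J x ≥ 12 * (v.cost F / v.D) * (v.m / 3) :=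
          mul_le_mul_of_nonneg_left m0 (by positivity)
        refine le_trans (le_of_eq ?_) this
        unfold Lev.D
        field_simp
        ring
      Ck_le := by
        calc (12 : ℝ) ≤ 2 ^ 4 := by norm_num
          _ ≤ (B : ℝ) ^ 4 := pow_le_pow_left₀ (by norm_num) hB2 4
          _ ≤ (B : ℝ) ^ 2400 := pow_le_pow_right₀ hB1 (by norm_num)
      h_le := h_le
      conf := by
        intro F x hx σ h0 h1 hk g g' hA hg hN
        obtain ⟨h2, h3⟩ := small_of B hB v.L small σ h0 h1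
        exact v.conf F x (G0_sub hx) σ h0 h2 h3 hk g g' hA hg hN
      X0_sub := X0_sub
      X0_card := X0_card
      X0_mem := X0_mem
      base := base
      Pr_sub := Pr_sub
      Pr_symm := Pr_symm
      Pr_weight := Pr_weight
      twin := twin
      lift := lift }
  exact PoolBe0380.M.no_sys S hB

end Pool.MPbe0380.Gb
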