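import Pool.Agent.Lib.MP_be0380_co.G.Four

/-!
# be0380: (2.7), the functions `f_x` and their weights
-/

set_option autoImplicit false

open Finset

namespace Pool.MPbe0380.Gb

variable {p : ℕ} [Fact p.Prime]

namespace Lev

variable (v : Lev p)

private theorem cs_aux {ι : Type*} [Fintype ι] (w p q r t : ι → ℝ) (hw : ∀ l, 0 ≤ w l) :
    (∑ l, w l * (p l * q l + r l * t l)) ^ 2 ≤
      (∑ l, w l * (p l ^ 2 + r l ^ 2)) * ∑ l, w l * (q l ^ 2 + t l ^ 2) := by
  have h : ∀ y : ℝ, 0 ≤ (∑ l, w l * (q l ^ 2 + t l ^ 2)) * (y * y) +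
      (-2 * ∑ l, w l * (p l * q l + r l * t l)) * y + ∑ l, w l * (p l ^ 2 + r l ^ 2) := by
    intro y
    have h1 : (∑ l, w l * (q l ^ 2 + t l ^ 2)) * (y * y) +
        (-2 * ∑ l, w l * (p l * q l + r l * t l)) * y + ∑ l, w l * (p l ^ 2 + r l ^ 2) =
        ∑ l, w l * ((p l - y * q l) ^ 2 + (r l - y * t l) ^ 2) := by
      rw [sum_mul, mul_sum, sum_mul, ← sum_add_distrib, ← sum_add_distrib]
      refine sum_congr rfl fun l _ => ?_
      ring
    rw [h1]
    exact sum_nonneg fun l _ => mul_nonneg (hw l) (by positivity)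
  have h2 := discrim_le_zero h
  rw [discrim] at h2
  nlinarith

private theorem fx_E_add (f g : ZMod p → ℝ) : v.E (fun l => f l + g l) = v.E f + v.E g := by
  simp only [Lev.E, Ex, mul_add, sum_add_distrib]

private theorem fx_E_nonneg {f : ZMod p → ℝ} (h : ∀ l, 0 ≤ f l) : 0 ≤ v.E f :=
  sum_nonneg fun l _ => mul_nonneg (om_pos v.I l).le (h l)

private theorem fx_mem_supp {x : ZMod p} (hx : x ∈ v.supp) : x ∈ v.A ∧ 0 < v.J x := by
  unfold Lev.supp at hx
  exact mem_filter.mp hx

private theorem fx_E_u {x : ZMod p} (hx : x ∈ v.supp) : v.E (u x) = v.L :=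
  v.kkt_eq x (v.fx_mem_supp hx).2

private theorem fx_E_u_le {x : ZMod p} (hx : x ∈ v.A) : v.E (u x) ≤ v.L := v.kkt x hx

theorem f_formula {x : ZMod p} (hx : x ∈ v.supp) (c : ZMod p) :
    2 * v.L * v.f x c = v.L + v.E (u c) - v.E (u (c - x)) := by
  have hL : 0 < v.L := v.L_pos
  have h1 : v.E (fun l => u x l * u c l) + v.E (fun l => s x l * s c l) + v.E (u (c - x)) =
      v.E (u x) + v.E (u c) := by
    simp only [Lev.E, Ex]
    rw [← sum_add_distrib, ← sum_add_distrib, ← sum_add_distrib]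
    refine sum_congr rfl fun l _ => ?_
    have h2 : u (c - x) l = u c l + u x l - u c l * u x l - s c l * s x l := by
      rw [sub_eq_add_neg, u_add, u_neg, s_neg]; ring
    rw [h2]; ring
  have h3 : v.f x c = (v.E (fun l => u x l * u c l) + v.E (fun l => s x l * s c l)) / (2 * v.L) := rfl
  rw [h3, mul_div_cancel₀ _ (by positivity : 2 * v.L ≠ 0)]
  rw [v.fx_E_u hx] at h1
  linarith

theorem f_self {x : ZMod p} (hx : x ∈ v.supp) : v.f x x = 1 := by
  have hL : 0 < v.L := v.L_pos
  have h := v.f_formula hx x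
  have h0 : v.E (u (x - x)) = 0 := by
    simp only [sub_self, Lev.E, Ex, u_zero, mul_zero, sum_const_zero]
  rw [h0, v.fx_E_u hx] at h
  have h1 : 2 * v.L * v.f x x = 2 * v.L * 1 := by rw [h]; ring
  exact mul_left_cancel₀ (by positivity) h1

theorem f_lip {x : ZMod p} (hx : x ∈ v.supp) (c c' : ZMod p) :
    |v.f x c - v.f x c'| ≤ v.dist (c - c') := by
  have hL : 0 < v.L := v.L_pos
  have h1 : v.f x c - v.f x c' =
      (∑ l, om v.I l * (u x l * (u c l - u c' l) + s x l * (s c l - s c' l))) / (2 * v.L) := by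
    unfold Lev.f
    rw [← sub_div]
    congr 1
    simp only [Lev.E, Ex]
    rw [← sum_add_distrib, ← sum_add_distrib, ← sum_sub_distrib]
    refine sum_congr rfl fun l _ => ?_
    ring
  have h2 := cs_aux (om v.I) (u x) (fun l => u c l - u c' l) (s x) (fun l => s c l - s c' l)
    (fun l => (om_pos v.I l).le)
  have h3 : ∑ l, om v.I l * (u x l ^ 2 + s x l ^ 2) = 2 * v.L := by
    have : ∑ l, om v.I l * (u x l ^ 2 + s x l ^ 2) = 2 * v.E (u x) := by
      simp only [Lev.E, Ex]
      rw [mul_sum]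
      refine sum_congr rfl fun l _ => ?_
      rw [s_sq]; ring
    rw [this, v.fx_E_u hx]
  have h4 : ∑ l, om v.I l * ((u c l - u c' l) ^ 2 + (s c l - s c' l) ^ 2) =
      2 * v.E (u (c - c')) := by
    simp only [Lev.E, Ex]
    rw [mul_sum]
    refine sum_congr rfl fun l _ => ?_
    have h5 : u (c - c') l = u c l + u c' l - u c l * u c' l - s c l * s c' l := by
      rw [sub_eq_add_neg, u_add, u_neg, s_neg]; ring
    have h6 := s_sq c l
    have h7 := s_sq c' l
    rw [h5]
    linear_combination (om v.I l) * h6 + (om v.I l) * h7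
  rw [h3, h4] at h2
  have hE : 0 ≤ v.E (u (c - c')) := v.fx_E_nonneg fun l => u_nonneg _ _
  unfold Lev.dist
  refine Real.abs_le_sqrt ?_
  rw [h1, div_pow, div_le_div_iff₀ (by positivity) hL]
  have h8 := mul_le_mul_of_nonneg_right h2 hL.le
  nlinarith

theorem f_le_one {x : ZMod p} (hx : x ∈ v.supp) {c : ZMod p} (hc : c ∈ v.A) : v.f x c ≤ 1 := by
  have hL : 0 < v.L := v.L_pos
  have h := v.f_formula hx c
  have h1 := v.fx_E_u_le hc
  have h2 : 0 ≤ v.E (u (c - x)) := v.fx_E_nonneg fun l => u_nonneg _ _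
  by_contra h3
  push Not at h3
  have h4 : 2 * v.L * 1 < 2 * v.L * v.f x c := mul_lt_mul_of_pos_left h3 (by positivity)
  linarith

theorem dist_sq_le {x : ZMod p} (hx : x ∈ v.supp) {c : ZMod p} (hc : c ∈ v.A) :
    v.dist (c - x) ^ 2 ≤ 2 * v.t x c := by
  have hL : 0 < v.L := v.L_pos
  have h := v.f_formula hx c
  have h1 := v.fx_E_u_le hc
  have h2 : 0 ≤ v.E (u (c - x)) := v.fx_E_nonneg fun l => u_nonneg _ _
  unfold Lev.dist Lev.t
  rw [Real.sq_sqrt (div_nonneg h2 hL.le), div_le_iff₀ hL]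
  linarith

/-- with a general difference in place of `s_c` -/
theorem weight_g (φ : ZMod p → ℝ) {g : ℝ} (h1 : 0 < g) (T : Finset (ZMod p))
    (hT : ∀ x ∈ T, g * v.L ≤ |v.E (fun l => s x l * φ l)|) :
    ∑ x ∈ T, v.J x ≤ v.E (fun l => φ l ^ 2) / (g * v.L) ^ 2 := by
  have hL : 0 < v.L := v.L_pos
  have hgL : 0 < g * v.L := mul_pos h1 hL
  rw [le_div_iff₀ (by positivity)]
  calc (∑ x ∈ T, v.J x) * (g * v.L) ^ 2
      = ∑ x ∈ T, v.J x * (g * v.L) ^ 2 := by rw [sum_mul]
    _ ≤ ∑ x ∈ T, v.J x * (v.E (fun l => s x l * φ l)) ^ 2 := by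
        refine sum_le_sum fun x hx => mul_le_mul_of_nonneg_left ?_ (v.J_nonneg x)
        rw [← sq_abs (v.E (fun l => s x l * φ l))]
        exact pow_le_pow_left₀ hgL.le (hT x hx) 2
    _ ≤ ∑ x, v.J x * (v.E (fun l => s x l * φ l)) ^ 2 :=
        sum_le_sum_of_subset_of_nonneg (subset_univ T) fun x _ _ =>
          mul_nonneg (v.J_nonneg x) (sq_nonneg _)
    _ ≤ v.E (fun l => φ l ^ 2) := v.pa φ

open Classical in
theorem weight_s {c : ZMod p} (hc : c ∈ v.A) {g : ℝ} (h1 : 0 < g) :
    ∑ x ∈ v.supp.filter (fun x => g * v.L ≤ |v.E (fun l => s x l * s c l)|), v.J x ≤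
      2 / (g ^ 2 * v.L) := by
  have hL : 0 < v.L := v.L_pos
  refine (v.weight_g (s c) h1 _ fun x hx => (mem_filter.mp hx).2).trans ?_
  have h2 : v.E (fun l => s c l ^ 2) ≤ 2 * v.L := by
    have h3 : v.E (fun l => s c l ^ 2) ≤ 2 * v.E (u c) := by
      simp only [Lev.E, Ex]
      rw [mul_sum]
      refine sum_le_sum fun l _ => ?_
      have := mul_le_mul_of_nonneg_left (s_sq_le c l) (om_pos v.I l).le
      linarith
    have h4 := v.fx_E_u_le hc
    linarith
  rw [div_le_div_iff₀ (by positivity) (by positivity)]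
  have h5 := mul_le_mul_of_nonneg_right h2 (by positivity : 0 ≤ g ^ 2 * v.L)
  nlinarith

private theorem fx_log_aux {U L : ℝ} (hU : 0 < U) (hUL : U ≤ L) (hL : L ≤ 1 / 10 ^ 8) :
    U * Real.log (2 / U) ≤ L * Real.log (2 / L) := by
  have hL0 : 0 < L := hU.trans_le hUL
  have h1 : Real.log (2 / U) = Real.log (2 / L) + Real.log (L / U) := by
    rw [← Real.log_mul (by positivity) (by positivity)]
    congr 1
    field_simp
  have h2 : Real.log (L / U) ≤ L / U - 1 := Real.log_le_sub_one_of_pos (by positivity)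
  have h3 : U * (L / U - 1) = L - U := by field_simp
  have h4 : 1 ≤ Real.log (2 / L) := by
    rw [Real.le_log_iff_exp_le (by positivity)]
    have h5 : Real.exp 1 < 3 := Real.exp_one_lt_three
    have h6 : (3 : ℝ) ≤ 2 / L := by
      rw [le_div_iff₀ hL0]
      norm_num at hL ⊢
      linarith
    linarith
  have h5 := mul_le_mul_of_nonneg_left h2 hU.le
  rw [h1]
  nlinarith

open Classical in
theorem weight_u {c : ZMod p} (hc : c ∈ v.A) {g : ℝ} (h1 : 16 * v.L ≤ g) (h2 : g ≤ 1) :
    ∑ x ∈ v.supp.filter (fun x => g * v.L ≤ v.E (fun l => u x l * u c l)), v.J x ≤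
      4 * Real.log (2 / v.L) / g := by
  have hL : 0 < v.L := v.L_pos
  have hL8 := v.L_le
  have hg : 0 < g := by linarith
  set T := v.supp.filter (fun x => g * v.L ≤ v.E (fun l => u x l * u c l)) with hT
  have hlog : 0 ≤ Real.log (2 / v.L) := by
    refine Real.log_nonneg ?_
    rw [le_div_iff₀ hL]
    norm_num at hL8 ⊢
    linarith
  rcases T.eq_empty_or_nonempty with h0 | ⟨x0, hx0⟩
  · rw [h0, sum_empty]
    positivity
  · have hUL : v.E (u c) ≤ v.L := v.fx_E_u_le hc
    have hU0 : 0 < v.E (u c) := by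
      have h3 : g * v.L ≤ v.E (fun l => u x0 l * u c l) := (mem_filter.mp hx0).2
      have h4 : v.E (fun l => u x0 l * u c l) ≤ 2 * v.E (u c) := by
        simp only [Lev.E, Ex]
        rw [mul_sum]
        refine sum_le_sum fun l _ => ?_
        have h5 := mul_le_mul_of_nonneg_right (u_le_two x0 l) (u_nonneg c l)
        have h6 := mul_le_mul_of_nonneg_left h5 (om_pos v.I l).le
        linarith
      have h5 : 0 < g * v.L := mul_pos hg hL
      linarith
    set U := v.E (u c) with hU
    let ν : ZMod p → ℝ := fun l => om v.I l * u c l / U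
    have hν : IsLaw ν := by
      refine ⟨fun l => div_nonneg (mul_nonneg (om_pos v.I l).le (u_nonneg c l)) hU0.le, ?_⟩
      change ∑ l, om v.I l * u c l / U = 1
      rw [← sum_div]
      exact div_self hU0.ne'
    have hKL : KL ν (om v.I) ≤ Real.log (2 / U) := by
      have h3 : ∀ l, ν l * Real.log (ν l / om v.I l) ≤ ν l * Real.log (2 / U) := by
        intro l
        rcases (hν.1 l).eq_or_lt with h4 | h4
        · rw [← h4, zero_mul, zero_mul]
        · refine mul_le_mul_of_nonneg_left ?_ h4.le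
          have hom := om_pos v.I l
          refine Real.log_le_log (div_pos h4 hom) ?_
          have h5 : ν l / om v.I l = u c l / U := by
            change om v.I l * u c l / U / om v.I l = u c l / U
            field_simp
          rw [h5]
          exact div_le_div_of_nonneg_right (u_le_two c l) hU0.le
      calc KL ν (om v.I) ≤ ∑ l, ν l * Real.log (2 / U) := sum_le_sum fun l _ => h3 l
        _ = Real.log (2 / U) := by rw [← sum_mul, hν.2, one_mul]
    have hpc := v.pc ν hν T (filter_subset _ _)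
    have h6 : (∑ x ∈ T, v.J x) * (g * v.L / U) ≤ ∑ x ∈ T, v.J x * (∑ l, ν l * u x l) := by
      rw [sum_mul]
      refine sum_le_sum fun x hx => mul_le_mul_of_nonneg_left ?_ (v.J_nonneg x)
      have h7 : g * v.L ≤ v.E (fun l => u x l * u c l) := (mem_filter.mp hx).2
      have h8 : ∑ l, ν l * u x l = v.E (fun l => u x l * u c l) / U := by
        simp only [Lev.E, Ex]
        rw [sum_div]
        refine sum_congr rfl fun l _ => ?_
        change om v.I l * u c l / U * u x l = _
        ring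
      rw [h8]
      exact div_le_div_of_nonneg_right h7 hU0.le
    have hJ : 0 ≤ ∑ x ∈ T, v.J x := sum_nonneg fun x _ => v.J_nonneg x
    set S := ∑ x ∈ T, v.J x with hS
    have h9 : 8 * v.L ≤ g * v.L / U / 2 := by
      rw [div_div, le_div_iff₀ (by positivity)]
      have : 8 * v.L * (U * 2) = v.L * (16 * U) := by ring
      rw [this, mul_comm g]
      exact mul_le_mul_of_nonneg_left (by linarith) hL.le
    have h10 : S * (g * v.L / U / 2) ≤ 2 * Real.log (2 / U) := by
      have h11 := mul_le_mul_of_nonneg_left h9 hJ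
      have h12 : 8 * v.L * S = S * (8 * v.L) := by ring
      have h13 : S * (g * v.L / U) = S * (g * v.L / U / 2) + S * (g * v.L / U / 2) := by ring
      linarith
    have h14 : S * (g * v.L) ≤ 4 * (U * Real.log (2 / U)) := by
      have h15 := mul_le_mul_of_nonneg_left h10 (by positivity : 0 ≤ 2 * U)
      have h16 : 2 * U * (S * (g * v.L / U / 2)) = S * (g * v.L) := by field_simp
      rw [h16] at h15
      linarith
    have h17 := fx_log_aux hU0 hUL hL8
    rw [le_div_iff₀ hg]
    have h18 : S * g * v.L ≤ 4 * Real.log (2 / v.L) * v.L := by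
      have : S * g * v.L = S * (g * v.L) := by ring
      rw [this]
      linarith
    exact le_of_mul_le_mul_right h18 hL

end Lev

end Pool.MPbe0380.Gb
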