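import Pool.Agent.Lib.MP_be0380_co.G0
import Pool.Agent.Lib.MP_be0380_co.M.Defs

/-!
# be0380: one level of the Gibbs chain, definitions

`Lev p` is one regular level `k` of the chain (2.3): `I0 = I^(k-1)`, `I = I0 + J`, `E = E_om`,
with the first order (KKT) conditions and the regularity `L_(k-1) ≤ 8 L`.
`BLev p` adds `|J| = 2^k √n` and that the level is bad.
-/

set_option autoImplicit false

open Finset

namespace Pool.MPbe0380.Gb

variable {p : ℕ} [Fact p.Prime]

/-- `A` has no unique sum -/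
def NUS (A : Finset (ZMod p)) : Prop :=
  ∀ a ∈ A, ∀ b ∈ A, ∃ c ∈ A, ∃ d ∈ A, c + d = a + b ∧ s(c, d) ≠ s(a, b)

/-- distance of `a / p` to the nearest integer -/
noncomputable def nrm (a : ZMod p) : ℝ := (a.valMinAbs.natAbs : ℝ) / p

/-! ### conditional expectations for a partition (a setoid) and positive weights -/

section cond

variable {Ω : Type} [Fintype Ω] (w : Ω → ℝ) (F : Setoid Ω)

open Classical in
/-- weight of `f` on the cell of `l` -/
noncomputable def csum (f : Ω → ℝ) (l : Ω) : ℝ := ∑ l' ∈ univ.filter (fun l' => F.r l' l), w l' * f l'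

/-- weight of the cell of `l` -/
noncomputable def cprob (l : Ω) : ℝ := csum w F (fun _ => 1) l

/-- conditional expectation of `f` given the cell of `l` -/
noncomputable def cexp (f : Ω → ℝ) (l : Ω) : ℝ := csum w F f l / cprob w F l

/-- entropy of the partition -/
noncomputable def cent : ℝ := - ∑ l, w l * Real.log (cprob w F l)

end cond

/-! ### one level -/

/-- One regular level of the Gibbs chain. -/
structure Lev (p : ℕ) [Fact p.Prime] where
  A : Finset (ZMod p)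
  I0 : ZMod p → ℝ
  J : ZMod p → ℝ
  L : ℝ
  p_odd : 3 ≤ p
  nus : NUS A
  two_le : 2 ≤ A.card
  I0_nonneg : ∀ a, 0 ≤ I0 a
  J_nonneg : ∀ a, 0 ≤ J a
  I0_supp : ∀ a, a ∉ A → I0 a = 0
  J_supp : ∀ a, a ∉ A → J a = 0
  L_pos : 0 < L
  L_le : L ≤ 1 / 10 ^ 8
  kkt : ∀ a ∈ A, Ex (I0 + J) (u a) ≤ L
  kkt_eq : ∀ a, 0 < J a → Ex (I0 + J) (u a) = L
  reg : ∀ a ∈ A, Ex I0 (u a) ≤ 8 * L
  m_pos : 0 < ∑ a, J a

namespace Lev

variable (v : Lev p)

/-- `I = I^(k)` -/
def I : ZMod p → ℝ := v.I0 + v.J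

/-- expectation under `om_k` -/
noncomputable def E (f : ZMod p → ℝ) : ℝ := Ex v.I f

/-- `m = |J|` -/
noncomputable def m : ℝ := ∑ a, v.J a

/-- `D = m L` -/
noncomputable def D : ℝ := v.m * v.L

/-- `n = |A|` -/
def n : ℕ := v.A.card

open Classical in
/-- support of `J` -/
noncomputable def supp : Finset (ZMod p) := v.A.filter (fun x => 0 < v.J x)

/-- `dist g = (E u_g / L)^(1/2)` -/
noncomputable def dist (g : ZMod p) : ℝ := √(v.E (u g) / v.L)

/-- cost of a partition: its entropy under `om_k` -/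
noncomputable def cost (F : Setoid (ZMod p)) : ℝ := cent (om v.I) F

open Classical in
/-- `N_F(g) = sup ‖g (l - l') / p‖` over `l, l'` in one cell -/
noncomputable def N (F : Setoid (ZMod p)) (g : ZMod p) : ℝ :=
  (univ.filter (fun e : ZMod p × ZMod p => F.r e.1 e.2)).sup' ⟨(0, 0), by simp⟩
    (fun e => nrm (g * (e.1 - e.2)))

/-- `kap_F(x) = L^(-1) [E(E[s_x|F]^2) + E(E[u_x|F] - 8L)_+]` -/
noncomputable def kap (F : Setoid (ZMod p)) (x : ZMod p) : ℝ :=
  v.L⁻¹ * (v.E (fun l => (cexp (om v.I) F (s x) l) ^ 2) +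
    v.E (fun l => max (cexp (om v.I) F (u x) l - 8 * v.L) 0))

/-- the partition of a list: cells of `⌊2^b {g l / p}⌋` -/
noncomputable def lst (E : Finset (ZMod p × ℕ)) : Setoid (ZMod p) :=
  Setoid.ker (fun l : ZMod p => fun e : E => (2 ^ (e : ZMod p × ℕ).2 * ((e : ZMod p × ℕ).1 * l).val) / p)

/-- `f_x(c) = (E u_x u_c + E s_x s_c) / (2L)` -/
noncomputable def f (x c : ZMod p) : ℝ :=
  (v.E (fun l => u x l * u c l) + v.E (fun l => s x l * s c l)) / (2 * v.L)

/-- `t_x(c) = 1 - f_x(c)` -/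
noncomputable def t (x c : ZMod p) : ℝ := 1 - v.f x c

end Lev

/-- A regular bad level of index `k`. -/
structure BLev (p : ℕ) [Fact p.Prime] extends Lev p where
  k : ℕ
  m_eq : ∑ a, J a = 2 ^ k * √(A.card : ℝ)
  K_le : (2 : ℝ) ^ k ≤ 4 * √(A.card : ℝ) * Real.log p
  bad : √(A.card : ℝ) / (k : ℝ) ^ 2 < (∑ a, J a) * L

end Pool.MPbe0380.Gb
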