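import Pool.Agent.Lib.MP_be0380_co.G0

/-!
# (2.2): domination
-/

set_option autoImplicit false

namespace Pool.MPbe0380.Gb

open Finset Real

variable {p : ℕ} [Fact p.Prime]

/-- `f` is dominated by `F`: the coefficients of `F` dominate those of `f` -/
def Dm (f F : ZMod p → ℂ) : Prop :=
  ∃ (α : ZMod p → ℂ) (β : ZMod p → ℝ), (∀ j, ‖α j‖ ≤ β j) ∧ (∀ l, f l = ∑ j, α j * z j l) ∧
    (∀ l, F l = ∑ j, (β j : ℂ) * z j l)

theorem Dm.congr {f F f' F' : ZMod p → ℂ} (h : Dm f F) (h1 : ∀ l, f' l = f l)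
    (h2 : ∀ l, F' l = F l) : Dm f' F' := by
  obtain ⟨α, β, h3, h4, h5⟩ := h
  exact ⟨α, β, h3, fun l => by rw [h1, h4], fun l => by rw [h2, h5]⟩

theorem Dm.norm_sum_bound {f F : ZMod p → ℂ} (h : Dm f F) : ‖∑ l, f l‖ ≤ (∑ l, F l).re := by
  obtain ⟨α, β, h3, h4, h5⟩ := h
  have key : ∀ γ : ZMod p → ℂ, ∑ l, ∑ j, γ j * z j l = p * γ 0 := by
    intro γ
    rw [sum_comm]
    simp only [← mul_sum, sum_z]
    simp only [mul_ite, mul_zero, sum_ite_eq', mem_univ, if_true]
    ring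
  simp only [h4, h5]
  rw [key, key fun j => ((β j : ℝ) : ℂ), norm_mul, Complex.norm_natCast]
  have h6 : ((p : ℂ) * ((β 0 : ℝ) : ℂ)).re = p * β 0 := by
    rw [← Complex.ofReal_natCast, ← Complex.ofReal_mul, Complex.ofReal_re]
  rw [h6]
  exact mul_le_mul_of_nonneg_left (h3 0) (Nat.cast_nonneg _)

theorem Dm.add {f F f' F' : ZMod p → ℂ} (h : Dm f F) (h' : Dm f' F') :
    Dm (fun l => f l + f' l) (fun l => F l + F' l) := by
  obtain ⟨α, β, h3, h4, h5⟩ := h
  obtain ⟨α', β', h3', h4', h5'⟩ := h'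
  refine ⟨fun j => α j + α' j, fun j => β j + β' j,
    fun j => (norm_add_le _ _).trans (add_le_add (h3 j) (h3' j)), fun l => ?_, fun l => ?_⟩
  · beta_reduce
    rw [h4, h4', ← sum_add_distrib]; exact sum_congr rfl fun j _ => by ring
  · beta_reduce
    rw [h5, h5', ← sum_add_distrib]; exact sum_congr rfl fun j _ => by push_cast; ring

theorem conv_eq (γ γ' : ZMod p → ℂ) (l : ZMod p) :
    (∑ j, γ j * z j l) * (∑ j, γ' j * z j l) = ∑ k, (∑ i, γ i * γ' (k - i)) * z k l := by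
  rw [sum_mul_sum]
  have h1 : ∀ i, ∑ j, γ i * z i l * (γ' j * z j l) = ∑ k, γ i * γ' (k - i) * z k l := by
    intro i
    refine Fintype.sum_equiv (Equiv.addRight i) _ _ fun j => ?_
    rw [Equiv.coe_addRight, add_sub_cancel_right, z_add]
    ring
  simp only [h1]
  rw [sum_comm]
  simp only [sum_mul]

theorem Dm.mul {f F f' F' : ZMod p → ℂ} (h : Dm f F) (h' : Dm f' F') :
    Dm (fun l => f l * f' l) (fun l => F l * F' l) := by
  obtain ⟨α, β, h3, h4, h5⟩ := h
  obtain ⟨α', β', h3', h4', h5'⟩ := h'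
  refine ⟨fun k => ∑ i, α i * α' (k - i), fun k => ∑ i, β i * β' (k - i), fun k => ?_,
    fun l => ?_, fun l => ?_⟩
  · refine (norm_sum_le _ _).trans (sum_le_sum fun i _ => ?_)
    rw [norm_mul]
    exact mul_le_mul (h3 i) (h3' _) (norm_nonneg _) ((norm_nonneg _).trans (h3 i))
  · beta_reduce
    rw [h4, h4', conv_eq]
  · beta_reduce
    rw [h5, h5', conv_eq]
    push_cast
    rfl

theorem Dm.char (a : ZMod p) : Dm (z a) (z a) := by
  classical
  refine ⟨fun j => if j = a then 1 else 0, fun j => if j = a then 1 else 0, fun j => ?_,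
    fun l => ?_, fun l => ?_⟩
  · beta_reduce
    split_ifs <;> simp
  · simp
  · beta_reduce
    rw [sum_eq_single a]
    · simp
    · intro b _ hb
      rw [if_neg hb]; simp
    · intro h; exact absurd (mem_univ a) h

theorem Dm.one : Dm (fun _ : ZMod p => (1 : ℂ)) (fun _ => 1) :=
  (Dm.char 0).congr (fun l => (z_zero l).symm) (fun l => (z_zero l).symm)

theorem Dm.smul {f F : ZMod p → ℂ} (h : Dm f F) {c : ℂ} {C : ℝ} (hc : ‖c‖ ≤ C) :
    Dm (fun l => c * f l) (fun l => (C : ℂ) * F l) := by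
  obtain ⟨α, β, h3, h4, h5⟩ := h
  refine ⟨fun j => c * α j, fun j => C * β j, fun j => ?_, fun l => ?_, fun l => ?_⟩
  · rw [norm_mul]
    exact mul_le_mul hc (h3 j) (norm_nonneg _) ((norm_nonneg _).trans hc)
  · beta_reduce
    rw [h4, mul_sum]; exact sum_congr rfl fun j _ => by ring
  · beta_reduce
    rw [h5, mul_sum]; exact sum_congr rfl fun j _ => by push_cast; ring

theorem Dm.zero : Dm (fun _ : ZMod p => (0 : ℂ)) (fun _ => 0) :=
  (Dm.one.smul (c := 0) (C := 0) (by simp)).congr (fun l => by simp) (fun l => by simp)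

theorem Dm.sum {κ : Type*} (S : Finset κ) {f F : κ → ZMod p → ℂ} (h : ∀ k ∈ S, Dm (f k) (F k)) :
    Dm (fun l => ∑ k ∈ S, f k l) (fun l => ∑ k ∈ S, F k l) := by
  classical
  induction S using Finset.induction_on with
  | empty => exact Dm.zero.congr (fun l => by simp) (fun l => by simp)
  | insert a S ha ih =>
    refine ((h a (mem_insert_self a S)).add
      (ih fun k hk => h k (mem_insert_of_mem hk))).congr (fun l => ?_) (fun l => ?_)
    · rw [sum_insert ha]
    · rw [sum_insert ha]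

theorem Dm.pow {f F : ZMod p → ℂ} (h : Dm f F) (n : ℕ) :
    Dm (fun l => f l ^ n) (fun l => F l ^ n) := by
  induction n with
  | zero => exact Dm.one.congr (fun l => by simp) (fun l => by simp)
  | succ n ih => exact (ih.mul h).congr (fun l => by rw [pow_succ]) (fun l => by rw [pow_succ])

open Filter Topology in
theorem Dm.exp_le {f F : ZMod p → ℂ} (h : Dm f F) :
    ‖∑ l, Complex.exp (f l)‖ ≤ (∑ l, Complex.exp (F l)).re := by
  have he : ∀ x : ℂ, Tendsto (fun N => ∑ n ∈ range N, x ^ n / (n.factorial : ℂ))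
      atTop (𝓝 (Complex.exp x)) := fun x => by
    have := (NormedSpace.expSeries_div_hasSum_exp x).tendsto_sum_nat
    rwa [← Complex.exp_eq_exp_ℂ] at this
  have h1 : Tendsto (fun N => ‖∑ l, ∑ n ∈ range N, f l ^ n / (n.factorial : ℂ)‖) atTop
      (𝓝 ‖∑ l, Complex.exp (f l)‖) := (tendsto_finsetSum _ fun l _ => he _).norm
  have h2 : Tendsto (fun N => (∑ l, ∑ n ∈ range N, F l ^ n / (n.factorial : ℂ)).re) atTop
      (𝓝 (∑ l, Complex.exp (F l)).re) :=
    (Complex.continuous_re.tendsto _).comp (tendsto_finsetSum _ fun l _ => he _)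
  refine le_of_tendsto_of_tendsto' h1 h2 fun N => ?_
  refine Dm.norm_sum_bound (f := fun l => ∑ n ∈ range N, f l ^ n / (n.factorial : ℂ))
    (F := fun l => ∑ n ∈ range N, F l ^ n / (n.factorial : ℂ)) ?_
  refine Dm.sum _ fun n _ => ?_
  refine ((h.pow n).smul (c := ((n.factorial : ℂ))⁻¹) (C := ((n.factorial : ℝ))⁻¹) ?_).congr
    (fun l => ?_) (fun l => ?_)
  · rw [norm_inv, Complex.norm_natCast]
  · rw [div_eq_inv_mul]
  · rw [div_eq_inv_mul]; push_cast; rfl

/-- replacing `I_a c_a + t_a s_a` by `√(I_a² + t_a²) c_a` increases the sum of the exponentials -/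
theorem sum_exp_le (I t : ZMod p → ℝ) :
    ∑ l, Real.exp (∑ a, (I a * (z a l).re + t a * s a l)) ≤
      ∑ l, Real.exp (∑ a, √(I a ^ 2 + t a ^ 2) * (z a l).re) := by
  set ρ : ZMod p → ℂ := fun a => (I a : ℂ) - (t a : ℂ) * Complex.I with hρ
  have hρn : ∀ a, ‖ρ a‖ = √(I a ^ 2 + t a ^ 2) := by
    intro a
    rw [Complex.norm_def, Complex.normSq_apply]
    congr 1
    simp only [hρ, Complex.sub_re, Complex.ofReal_re, Complex.mul_re, Complex.I_re, mul_zero,
      Complex.ofReal_im, Complex.I_im, mul_one, sub_self, sub_zero, Complex.sub_im, Complex.mul_im,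
      add_zero]
    ring
  have hconj : ∀ a l : ZMod p, (starRingEnd ℂ) (z a l) = z (-a) l := fun a l => (z_neg a l).symm
  have hf : ∀ l, ((∑ a, (I a * (z a l).re + t a * s a l) : ℝ) : ℂ) =
      ∑ a, ((1 / 2 * ρ a) * z a l + (1 / 2 * (starRingEnd ℂ) (ρ a)) * z (-a) l) := by
    intro l
    push_cast
    refine sum_congr rfl fun a _ => ?_
    rw [← hconj]
    have h1 : z a l = ((z a l).re : ℂ) + ((z a l).im : ℂ) * Complex.I := (Complex.re_add_im _).symm
    have h2 : (starRingEnd ℂ) (z a l) = ((z a l).re : ℂ) - ((z a l).im : ℂ) * Complex.I := by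
      rw [Complex.ext_iff]; simp
    have h3 : (starRingEnd ℂ) (ρ a) = (I a : ℂ) + (t a : ℂ) * Complex.I := by
      rw [Complex.ext_iff]; simp [hρ]
    rw [h3, h2]
    nth_rewrite 2 [h1]
    simp only [hρ, s]
    linear_combination (t a : ℂ) * ((z a l).im : ℂ) * Complex.I_sq
  have hF : ∀ l, ((∑ a, √(I a ^ 2 + t a ^ 2) * (z a l).re : ℝ) : ℂ) =
      ∑ a, (((1 / 2 * √(I a ^ 2 + t a ^ 2) : ℝ) : ℂ) * z a l +
        ((1 / 2 * √(I a ^ 2 + t a ^ 2) : ℝ) : ℂ) * z (-a) l) := by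
    intro l
    push_cast
    refine sum_congr rfl fun a _ => ?_
    rw [← hconj]
    have h1 : z a l = ((z a l).re : ℂ) + ((z a l).im : ℂ) * Complex.I := (Complex.re_add_im _).symm
    have h2 : (starRingEnd ℂ) (z a l) = ((z a l).re : ℂ) - ((z a l).im : ℂ) * Complex.I := by
      rw [Complex.ext_iff]; simp
    rw [h2]
    nth_rewrite 2 [h1]
    ring
  have hDm : Dm (fun l => ((∑ a, (I a * (z a l).re + t a * s a l) : ℝ) : ℂ))
      (fun l => ((∑ a, √(I a ^ 2 + t a ^ 2) * (z a l).re : ℝ) : ℂ)) := by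
    refine (Dm.sum univ fun a _ => ?_).congr hf hF
    refine ((Dm.char a).smul ?_).add ((Dm.char (-a)).smul ?_)
    · rw [norm_mul, hρn]; norm_num
    · rw [norm_mul, RCLike.norm_conj, hρn]; norm_num
  have h := hDm.exp_le
  have h1 : ∑ l, Complex.exp (((∑ a, (I a * (z a l).re + t a * s a l) : ℝ) : ℂ)) =
      ((∑ l, Real.exp (∑ a, (I a * (z a l).re + t a * s a l)) : ℝ) : ℂ) := by
    push_cast; rfl
  have h2 : ∑ l, Complex.exp (((∑ a, √(I a ^ 2 + t a ^ 2) * (z a l).re : ℝ) : ℂ)) =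
      ((∑ l, Real.exp (∑ a, √(I a ^ 2 + t a ^ 2) * (z a l).re) : ℝ) : ℂ) := by
    push_cast; rfl
  rw [h1, h2, Complex.ofReal_re, Complex.norm_real, Real.norm_of_nonneg (by positivity)] at h
  exact h

/-- (2.2) -/
theorem domination (I t : ZMod p → ℝ) (hI : ∀ a, 0 ≤ I a) (ht : ∀ a, I a = 0 → t a = 0) :
    Ex I (fun l => Real.exp (∑ a, t a * s a l)) ≤ Real.exp (∑ a, t a ^ 2 / (2 * I a)) := by
  have h0 : Ex I (fun l => Real.exp (∑ a, t a * s a l)) =
      (∑ l, Real.exp (- en I l) * Real.exp (∑ a, t a * s a l)) / Zp I := by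
    simp only [Ex, om, div_mul_eq_mul_div]
    rw [← sum_div]
  rw [h0, div_le_iff₀ (Zp_pos I)]
  have h1 : ∀ l, Real.exp (- en I l) * Real.exp (∑ a, t a * s a l) =
      Real.exp (-∑ a, I a) * Real.exp (∑ a, (I a * (z a l).re + t a * s a l)) := by
    intro l
    rw [← Real.exp_add, ← Real.exp_add]
    congr 1
    simp only [en, u, mul_sub, mul_one, sum_sub_distrib, sum_add_distrib]
    ring
  simp only [h1]
  rw [← mul_sum]
  refine (mul_le_mul_of_nonneg_left (sum_exp_le I t) (Real.exp_pos _).le).trans ?_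
  rw [mul_sum, Zp, mul_sum]
  refine sum_le_sum fun l _ => ?_
  rw [← Real.exp_add, ← Real.exp_add, Real.exp_le_exp]
  have h2 : ∀ a, √(I a ^ 2 + t a ^ 2) * (z a l).re ≤ t a ^ 2 / (2 * I a) + I a * (z a l).re := by
    intro a
    have hre := (abs_le.mp (abs_re_le a l))
    rcases (hI a).eq_or_lt with h | h
    · rw [← h, ht a h.symm]; simp
    · have h3 : √(I a ^ 2 + t a ^ 2) ≤ I a + t a ^ 2 / (2 * I a) := by
        rw [Real.sqrt_le_iff]
        refine ⟨by positivity, ?_⟩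
        have : (I a + t a ^ 2 / (2 * I a)) ^ 2 = I a ^ 2 + t a ^ 2 + (t a ^ 2 / (2 * I a)) ^ 2 := by
          field_simp
          ring
        rw [this]
        nlinarith [sq_nonneg (t a ^ 2 / (2 * I a))]
      have h4 : I a ≤ √(I a ^ 2 + t a ^ 2) := by
        rw [Real.le_sqrt h.le (by positivity)]
        nlinarith [sq_nonneg (t a)]
      nlinarith
  calc -∑ a, I a + ∑ a, √(I a ^ 2 + t a ^ 2) * (z a l).re
      ≤ -∑ a, I a + ∑ a, (t a ^ 2 / (2 * I a) + I a * (z a l).re) := by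
        gcongr with a _
        exact h2 a
    _ = ∑ a, t a ^ 2 / (2 * I a) + - en I l := by
        simp only [en, u, mul_sub, mul_one, sum_sub_distrib, sum_add_distrib]
        ring

theorem one_add_le_cosh (x : ℝ) : 1 + x ^ 2 / 2 ≤ Real.cosh x := by
  have h := sum_le_hasSum (range 2) (fun n _ => by rw [pow_mul]; positivity) (Real.hasSum_cosh x)
  have h2 : ∑ n ∈ range 2, x ^ (2 * n) / ((2 * n).factorial : ℝ) = 1 + x ^ 2 / 2 := by
    rw [sum_range_succ, sum_range_succ, sum_range_zero]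
    norm_num [Nat.factorial]
  rw [h2] at h
  exact h

/-- (2.2), second order -/
theorem domination2 (I t : ZMod p → ℝ) (hI : ∀ a, 0 ≤ I a) (ht : ∀ a, I a = 0 → t a = 0) :
    Ex I (fun l => (∑ a, t a * s a l) ^ 2) ≤ ∑ a, t a ^ 2 / I a := by
  set B : ℝ := ∑ a, t a ^ 2 / I a with hB
  have hB0 : 0 ≤ B := sum_nonneg fun a _ => div_nonneg (sq_nonneg _) (hI a)
  set X : ZMod p → ℝ := fun l => ∑ a, t a * s a l with hX
  set M : ℝ := Ex I (fun l => X l ^ 2) with hM
  have key : ∀ ε : ℝ, 1 + ε ^ 2 / 2 * M ≤ Real.exp (ε ^ 2 / 2 * B) := by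
    intro ε
    have h1 : ∀ σ : ℝ, σ ^ 2 = ε ^ 2 → Ex I (fun l => Real.exp (σ * X l)) ≤ Real.exp (ε ^ 2 / 2 * B) := by
      intro σ hσ
      have h2 := domination I (fun a => σ * t a) hI (fun a ha => by rw [ht a ha, mul_zero])
      have h3 : ∀ l, ∑ a, σ * t a * s a l = σ * X l := by
        intro l
        simp only [hX, mul_sum]
        exact sum_congr rfl fun a _ => by ring
      have h4 : ∑ a, (σ * t a) ^ 2 / (2 * I a) = ε ^ 2 / 2 * B := by
        rw [hB, mul_sum]
        refine sum_congr rfl fun a _ => ?_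
        rw [mul_pow, hσ]
        rcases eq_or_ne (I a) 0 with h | h
        · rw [h]; simp
        · field_simp
      simp only [h3, h4] at h2
      exact h2
    have h5 := h1 ε rfl
    have h6 := h1 (-ε) (by ring)
    have h7 : Ex I (fun l => 1 + ε ^ 2 / 2 * X l ^ 2) ≤
        (Ex I (fun l => Real.exp (ε * X l)) + Ex I (fun l => Real.exp (-ε * X l))) / 2 := by
      simp only [Ex]
      rw [← sum_add_distrib, sum_div]
      refine sum_le_sum fun l _ => ?_
      have h8 : 1 + (ε * X l) ^ 2 / 2 ≤ Real.cosh (ε * X l) := one_add_le_cosh _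
      rw [Real.cosh_eq] at h8
      have h9 : -ε * X l = -(ε * X l) := by ring
      rw [h9]
      have h10 := (om_pos I l).le
      have h11 := mul_le_mul_of_nonneg_left h8 h10
      calc om I l * (1 + ε ^ 2 / 2 * X l ^ 2) = om I l * (1 + (ε * X l) ^ 2 / 2) := by ring
        _ ≤ _ := h11
        _ = _ := by ring
    have h8 : Ex I (fun l => 1 + ε ^ 2 / 2 * X l ^ 2) = 1 + ε ^ 2 / 2 * M := by
      simp only [Ex, hM, mul_add, mul_one, sum_add_distrib]
      rw [(isLaw_om I).2, mul_sum]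
      congr 1
      exact sum_congr rfl fun l _ => by ring
    rw [h8] at h7
    linarith
  -- let `ε → 0`
  refine le_of_forall_pos_le_add fun η hη => ?_
  obtain ⟨δ, hδ0, hδ1, hδ2⟩ : ∃ δ : ℝ, 0 < δ ∧ δ * B ≤ 1 ∧ δ * B ^ 2 ≤ η := by
    refine ⟨min (1 / (B + 1)) (η / (B ^ 2 + 1)), by positivity, ?_, ?_⟩
    · calc min (1 / (B + 1)) (η / (B ^ 2 + 1)) * B ≤ 1 / (B + 1) * B :=
            mul_le_mul_of_nonneg_right (min_le_left _ _) hB0
        _ ≤ 1 := by rw [div_mul_eq_mul_div, div_le_one (by positivity)]; linarith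
    · calc min (1 / (B + 1)) (η / (B ^ 2 + 1)) * B ^ 2 ≤ η / (B ^ 2 + 1) * B ^ 2 :=
            mul_le_mul_of_nonneg_right (min_le_right _ _) (sq_nonneg _)
        _ ≤ η := by rw [div_mul_eq_mul_div, div_le_iff₀ (by positivity)]; nlinarith
  have h1 := key (√(2 * δ))
  rw [Real.sq_sqrt (by positivity)] at h1
  have h2 : 2 * δ / 2 = δ := by ring
  rw [h2] at h1
  have h3 : Real.exp (δ * B) ≤ 1 + δ * B + (δ * B) ^ 2 := by
    have h4 := Real.abs_exp_sub_one_sub_id_le (x := δ * B) (by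
      rw [abs_of_nonneg (by positivity)]; exact hδ1)
    have := (abs_le.mp h4).2
    linarith
  have h4 : δ * M ≤ δ * (B + δ * B ^ 2) := by nlinarith
  have h5 : M ≤ B + δ * B ^ 2 := le_of_mul_le_mul_left h4 hδ0
  linarith

end Pool.MPbe0380.Gb
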