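import Pool.Agent.Lib.MP_be0380_co.G.Defs
import Pool.Agent.Lib.MP_be0380_co.G.Gin
import Pool.Agent.Lib.MP_be0380_co.G.Dom

/-!
# G4: (2.5) (a)-(d)
-/

set_option autoImplicit false

open Finset

namespace Pool.MPbe0380.Gb

variable {p : ℕ} [Fact p.Prime]

private theorem kl_eq {ν ω : ZMod p → ℝ} (hν : IsLaw ν) (hω : ∀ l, 0 < ω l) :
    KL ν ω = - ent ν - ∑ l, ν l * Real.log (ω l) := by
  unfold KL ent
  rw [← sum_neg_distrib, ← sum_sub_distrib]
  refine sum_congr rfl fun l _ => ?_
  rcases (hν.1 l).eq_or_lt with h | h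
  · rw [← h]; simp
  · rw [Real.log_div h.ne' (hω l).ne', Real.negMulLog]; ring

/-- Donsker-Varadhan -/
private theorem dv {ν ω : ZMod p → ℝ} (hν : IsLaw ν) (hω : ∀ l, 0 < ω l) (f : ZMod p → ℝ) :
    ∑ l, ν l * f l ≤ KL ν ω + Real.log (∑ l, ω l * Real.exp (f l)) := by
  set Z := ∑ l, ω l * Real.exp (f l) with hZ
  have hZ0 : 0 < Z := sum_pos (fun l _ => mul_pos (hω l) (Real.exp_pos _)) univ_nonempty
  have h := ent_le (Q := fun l => ω l * Real.exp (f l) / Z) hν
    (fun l => div_pos (mul_pos (hω l) (Real.exp_pos _)) hZ0)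
    (by rw [← sum_div, ← hZ, div_self hZ0.ne'])
  have h1 : ∀ l, Real.log (ω l * Real.exp (f l) / Z) = Real.log (ω l) + f l - Real.log Z := by
    intro l
    rw [Real.log_div (mul_pos (hω l) (Real.exp_pos _)).ne' hZ0.ne',
      Real.log_mul (hω l).ne' (Real.exp_pos _).ne', Real.log_exp]
  simp only [h1, mul_sub, mul_add, sum_sub_distrib, sum_add_distrib] at h
  rw [← sum_mul, hν.2, one_mul] at h
  rw [kl_eq hν hω]
  linarith

namespace Lev

variable (v : Lev p)

private theorem I_nonneg (a : ZMod p) : 0 ≤ v.I a := add_nonneg (v.I0_nonneg a) (v.J_nonneg a)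

private theorem J_le_I (a : ZMod p) : v.J a ≤ v.I a := by
  have := v.I0_nonneg a
  unfold I
  rw [Pi.add_apply]
  linarith

private theorem J_zero {a : ZMod p} (h : v.I a = 0) : v.J a = 0 :=
  le_antisymm (by rw [← h]; exact v.J_le_I a) (v.J_nonneg a)

/-- `t^2 / I ≤ J b^2` for `t = J b` -/
private theorem sq_div_le (a : ZMod p) (b : ℝ) : (v.J a * b) ^ 2 / v.I a ≤ v.J a * b ^ 2 := by
  rcases (v.I_nonneg a).eq_or_lt with h | h
  · rw [v.J_zero h.symm]; simp
  · rw [div_le_iff₀ h]
    have h1 := mul_le_mul_of_nonneg_left (v.J_le_I a) (mul_nonneg (v.J_nonneg a) (sq_nonneg b))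
    nlinarith

private theorem E_mul_sum (t : ZMod p → ℝ) (g : ZMod p → ℝ) :
    v.E (fun l => (∑ x, t x * s x l) * g l) = ∑ x, t x * v.E (fun l => s x l * g l) := by
  unfold E Ex
  simp only [sum_mul, mul_sum]
  rw [sum_comm]
  exact sum_congr rfl fun x _ => sum_congr rfl fun l _ => by ring

private theorem cs (f g : ZMod p → ℝ) :
    (v.E (fun l => f l * g l)) ^ 2 ≤ v.E (fun l => f l ^ 2) * v.E (fun l => g l ^ 2) := by
  unfold E Ex
  have h := sum_mul_sq_le_sq_mul_sq univ (fun l => √(om v.I l) * f l) (fun l => √(om v.I l) * g l)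
  have h1 : ∀ l, √(om v.I l) * √(om v.I l) = om v.I l := fun l => Real.mul_self_sqrt (om_pos v.I l).le
  have e1 : ∀ l, √(om v.I l) * f l * (√(om v.I l) * g l) = om v.I l * (f l * g l) := fun l => by
    calc √(om v.I l) * f l * (√(om v.I l) * g l)
        = (√(om v.I l) * √(om v.I l)) * (f l * g l) := by ring
      _ = om v.I l * (f l * g l) := by rw [h1 l]
  have e2 : ∀ (f : ZMod p → ℝ) l, (√(om v.I l) * f l) ^ 2 = om v.I l * f l ^ 2 := fun f l => by
    rw [mul_pow, Real.sq_sqrt (om_pos v.I l).le]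
  simp only [e1, e2] at h
  exact h

theorem pa (g : ZMod p → ℝ) :
    ∑ x, v.J x * (v.E (fun l => s x l * g l)) ^ 2 ≤ v.E (fun l => g l ^ 2) := by
  set b : ZMod p → ℝ := fun x => v.E (fun l => s x l * g l) with hb
  set S := ∑ x, v.J x * (b x) ^ 2 with hS
  set t : ZMod p → ℝ := fun x => v.J x * b x with ht
  have hS0 : 0 ≤ S := sum_nonneg fun x _ => mul_nonneg (v.J_nonneg x) (sq_nonneg _)
  have hg0 : 0 ≤ v.E (fun l => g l ^ 2) :=
    sum_nonneg fun l _ => mul_nonneg (om_pos v.I l).le (sq_nonneg _)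
  have h1 : v.E (fun l => (∑ x, t x * s x l) * g l) = S := by
    rw [E_mul_sum, hS]
    exact sum_congr rfl fun x _ => by simp only [ht, hb]; ring
  have h2 : v.E (fun l => (∑ x, t x * s x l) ^ 2) ≤ S := by
    refine (domination2 v.I t v.I_nonneg fun a ha => by
      simp only [ht]; rw [v.J_zero ha, zero_mul]).trans ?_
    exact sum_le_sum fun x _ => v.sq_div_le x (b x)
  have h3 := v.cs (fun l => ∑ x, t x * s x l) g
  rw [h1] at h3
  have h4 : S ^ 2 ≤ S * v.E (fun l => g l ^ 2) := h3.trans (mul_le_mul_of_nonneg_right h2 hg0)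
  rcases hS0.eq_or_lt with h | h
  · rw [← h]; exact hg0
  · rw [sq] at h4
    exact le_of_mul_le_mul_left h4 h

theorem pb (ν : ZMod p → ℝ) (hν : IsLaw ν) :
    ∑ x, v.J x * (∑ l, ν l * s x l) ^ 2 ≤ 2 * KL ν (om v.I) := by
  set b : ZMod p → ℝ := fun x => ∑ l, ν l * s x l with hb
  set S := ∑ x, v.J x * (b x) ^ 2 with hS
  set t : ZMod p → ℝ := fun x => v.J x * b x with ht
  have h1 := dv hν (om_pos v.I) (fun l => ∑ x, t x * s x l)
  have h2 : ∑ l, ν l * ∑ x, t x * s x l = S := by
    rw [hS]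
    simp only [mul_sum]
    rw [sum_comm]
    refine sum_congr rfl fun x _ => ?_
    simp only [ht]
    have h3 : ∀ l, ν l * (v.J x * b x * s x l) = (v.J x * b x) * (ν l * s x l) := fun l => by ring
    calc ∑ l, ν l * (v.J x * b x * s x l) = v.J x * b x * ∑ l, ν l * s x l := by
          rw [sum_congr rfl fun l _ => h3 l, ← mul_sum]
      _ = v.J x * b x * b x := by rfl
      _ = v.J x * b x ^ 2 := by ring
  have h3 := domination v.I t v.I_nonneg fun a ha => by
      simp only [ht]; rw [v.J_zero ha, zero_mul]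
  have h4 : Real.log (∑ l, om v.I l * Real.exp (∑ x, t x * s x l)) ≤ ∑ a, t a ^ 2 / (2 * v.I a) := by
    have h5 : 0 < ∑ l, om v.I l * Real.exp (∑ x, t x * s x l) :=
      sum_pos (fun l _ => mul_pos (om_pos v.I l) (Real.exp_pos _)) univ_nonempty
    rw [Real.log_le_iff_le_exp h5]
    exact h3
  have h5 : ∑ a, t a ^ 2 / (2 * v.I a) ≤ S / 2 := by
    rw [hS, sum_div]
    refine sum_le_sum fun x _ => ?_
    have h6 := v.sq_div_le x (b x)
    have h7 : t x ^ 2 / (2 * v.I x) = ((v.J x * b x) ^ 2 / v.I x) / 2 := by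
      rw [div_div, mul_comm (v.I x) 2]
    rw [h7]
    linarith
  rw [h2] at h1
  linarith

theorem pc (ν : ZMod p → ℝ) (hν : IsLaw ν) (T : Finset (ZMod p)) (hT : T ⊆ v.supp) :
    ∑ x ∈ T, v.J x * (∑ l, ν l * u x l) ≤ 2 * KL ν (om v.I) + 8 * v.L * ∑ x ∈ T, v.J x := by
  classical
  have hp2 : p ≠ 2 := by have := v.p_odd; omega
  set K : ZMod p → ℝ := fun x => if x ∈ T then v.J x / 2 else 0 with hK
  have hK0 : ∀ x, 0 ≤ K x := fun x => by
    simp only [hK]; split_ifs
    · exact div_nonneg (v.J_nonneg x) (by norm_num)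
    · exact le_rfl
  have hKJ : ∀ x, K x ≤ v.J x := fun x => by
    simp only [hK]; split_ifs
    · have := v.J_nonneg x; linarith
    · exact v.J_nonneg x
  set I' : ZMod p → ℝ := fun x => v.I x - K x with hI'
  have h1 := dv hν (om_pos v.I) (fun l => en K l)
  -- the exponential moment
  have h2 : Real.log (∑ l, om v.I l * Real.exp (en K l)) = V I' - V v.I := by
    have h3 : ∑ l, om v.I l * Real.exp (en K l) = Zp I' / Zp v.I := by
      unfold om
      simp only [div_mul_eq_mul_div]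
      rw [← sum_div]
      congr 1
      unfold Zp
      refine sum_congr rfl fun l _ => ?_
      rw [← Real.exp_add]
      congr 1
      unfold en
      rw [← sum_neg_distrib, ← sum_neg_distrib, ← sum_add_distrib]
      refine sum_congr rfl fun x _ => ?_
      simp only [hI']
      ring
    rw [h3, Real.log_div (Zp_pos _).ne' (Zp_pos _).ne']
    rfl
  have h3 := ent_sub_le_V v.I (isLaw_om I')
  rw [ent_om] at h3
  have h4 : V I' - V v.I ≤ ∑ x, K x * Ex I' (u x) := by
    have h5 : ∑ a, v.I a * ∑ l, om I' l * u a l = ∑ a, v.I a * Ex I' (u a) := rfl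
    rw [h5] at h3
    have h6 : ∑ x, K x * Ex I' (u x) = ∑ a, v.I a * Ex I' (u a) - ∑ a, I' a * Ex I' (u a) := by
      rw [← sum_sub_distrib]
      refine sum_congr rfl fun x _ => ?_
      simp only [hI']
      ring
    rw [h6]
    linarith
  have h5 : ∑ x, K x * Ex I' (u x) ≤ 4 * v.L * ∑ x ∈ T, v.J x := by
    have h6 : ∀ x, K x * Ex I' (u x) ≤ if x ∈ T then 4 * v.L * v.J x else 0 := by
      intro x
      by_cases hx : x ∈ T
      · rw [if_pos hx]
        have hA : x ∈ v.A := (mem_filter.mp (hT hx)).1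
        have h7 : Ex I' (u x) ≤ 8 * v.L := by
          refine (Ex_u_anti hp2 v.I0_nonneg (fun b => ?_) x).trans (v.reg x hA)
          simp only [hI', Lev.I, Pi.add_apply]
          have := hKJ b
          linarith
        have h8 : K x = v.J x / 2 := by simp only [hK]; rw [if_pos hx]
        rw [h8]
        have := v.J_nonneg x
        nlinarith
      · rw [if_neg hx]
        have h8 : K x = 0 := by simp only [hK]; rw [if_neg hx]
        rw [h8, zero_mul]
    refine (sum_le_sum fun x _ => h6 x).trans ?_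
    rw [← sum_filter, mul_sum]
    refine le_of_eq ?_
    congr 1
    ext x
    simp
  have h6 : ∑ l, ν l * en K l = (∑ x ∈ T, v.J x * (∑ l, ν l * u x l)) / 2 := by
    have h7 : ∀ x, K x * ∑ l, ν l * u x l =
        if x ∈ T then v.J x * (∑ l, ν l * u x l) / 2 else 0 := by
      intro x
      simp only [hK]
      split_ifs
      · ring
      · rw [zero_mul]
    unfold en
    simp only [mul_sum]
    rw [sum_comm]
    calc ∑ x, ∑ l, ν l * (K x * u x l) = ∑ x, K x * ∑ l, ν l * u x l := by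
          refine sum_congr rfl fun x _ => ?_
          rw [mul_sum]; exact sum_congr rfl fun l _ => by ring
      _ = ∑ x, if x ∈ T then v.J x * (∑ l, ν l * u x l) / 2 else 0 :=
          sum_congr rfl fun x _ => h7 x
      _ = ∑ x ∈ T, v.J x * (∑ l, ν l * u x l) / 2 := by
          rw [← sum_filter]
          congr 1
          ext x
          simp
      _ = _ := by rw [← sum_div]; simp only [mul_sum]
  rw [h6, h2] at h1
  linarith

theorem pd : v.D ≤ ent (om v.I) := by
  rw [ent_om]
  have h1 : v.D = ∑ a, v.J a * Ex v.I (u a) := by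
    unfold D m
    rw [sum_mul]
    refine sum_congr rfl fun a _ => ?_
    rcases (v.J_nonneg a).eq_or_lt with h | h
    · rw [← h, zero_mul, zero_mul]
    · rw [show Ex v.I (u a) = v.L from v.kkt_eq a h]
  have h2 : ∑ a, v.J a * Ex v.I (u a) ≤ ∑ a, v.I a * Ex v.I (u a) := by
    refine sum_le_sum fun a _ => mul_le_mul_of_nonneg_right (v.J_le_I a) ?_
    exact sum_nonneg fun l _ => mul_nonneg (om_pos v.I l).le (u_nonneg a l)
  have h3 := V_nonneg v.I
  rw [h1]
  linarith

end Lev

end Pool.MPbe0380.Gb
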