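import Pool.Agent.Lib.MP_be0380_co.G.Defs

/-!
# be0380, module G3: existence of the minimiser of `V(I0 + J)` and first order conditions
-/

set_option autoImplicit false

open Finset

namespace Pool.MPbe0380.Gb

variable {p : ℕ} [Fact p.Prime]

/-- convexity of `V` from its gradient -/
theorem V_ge (I I' : ZMod p → ℝ) : V I + ∑ a, (I a - I' a) * Ex I (u a) ≤ V I' := by
  have h := ent_sub_le_V I' (isLaw_om I)
  rw [ent_om] at h
  have h1 : ∑ a, (I a - I' a) * Ex I (u a) =
      ∑ a, I a * Ex I (u a) - ∑ a, I' a * ∑ l, om I l * u a l := by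
    rw [← sum_sub_distrib]
    refine sum_congr rfl fun a _ => ?_
    rw [Ex]; ring
  rw [h1]
  linarith

theorem continuous_en (l : ZMod p) : Continuous fun I : ZMod p → ℝ => en I l := by
  unfold en
  exact continuous_finsetSum _ fun a _ => (continuous_apply a).mul continuous_const

theorem continuous_Zp : Continuous fun I : ZMod p → ℝ => Zp I := by
  unfold Zp
  exact continuous_finsetSum _ fun l _ => Real.continuous_exp.comp (continuous_en l).neg

theorem continuous_V : Continuous fun I : ZMod p → ℝ => V I := by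
  unfold V
  exact Continuous.log continuous_Zp fun I => (Zp_pos I).ne'

theorem continuous_Ex (f : ZMod p → ℝ) : Continuous fun I : ZMod p → ℝ => Ex I f := by
  unfold Ex om
  refine continuous_finsetSum _ fun l _ => ?_
  exact (Continuous.div (Real.continuous_exp.comp (continuous_en l).neg) continuous_Zp
    fun I => (Zp_pos I).ne').mul continuous_const

/-- the minimiser exists -/
theorem exists_minimiser (A : Finset (ZMod p)) (hA : A.Nonempty) (I0 : ZMod p → ℝ) (m : ℝ)
    (hm : 0 < m) :
    ∃ J : ZMod p → ℝ, ((∀ a, 0 ≤ J a) ∧ (∀ a, a ∉ A → J a = 0) ∧ ∑ a, J a = m) ∧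
      ∀ J' : ZMod p → ℝ, (∀ a, 0 ≤ J' a) → (∀ a, a ∉ A → J' a = 0) → ∑ a, J' a = m →
        V (I0 + J) ≤ V (I0 + J') := by
  set K : Set (ZMod p → ℝ) :=
    {J | (∀ a, 0 ≤ J a) ∧ (∀ a, a ∉ A → J a = 0) ∧ ∑ a, J a = m} with hK
  have hclosed : IsClosed K := by
    have h1 : IsClosed {J : ZMod p → ℝ | ∀ a, 0 ≤ J a} := by
      rw [Set.ofPred_forall]
      exact isClosed_iInter fun a => isClosed_le continuous_const (continuous_apply a)
    have h2 : IsClosed {J : ZMod p → ℝ | ∀ a, a ∉ A → J a = 0} := by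
      rw [Set.ofPred_forall]
      refine isClosed_iInter fun a => ?_
      rw [Set.ofPred_forall]
      exact isClosed_iInter fun _ => isClosed_eq (continuous_apply a) continuous_const
    have h3 : IsClosed {J : ZMod p → ℝ | ∑ a, J a = m} :=
      isClosed_eq (continuous_finsetSum _ fun a _ => continuous_apply a) continuous_const
    exact h1.inter (h2.inter h3)
  have hcompact : IsCompact K := by
    refine IsCompact.of_isClosed_subset (isCompact_Icc (a := (0 : ZMod p → ℝ))
      (b := fun _ => m)) hclosed ?_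
    rintro J ⟨h0, _, h2⟩
    refine ⟨fun a => h0 a, fun a => ?_⟩
    rw [← h2]
    exact single_le_sum (f := J) (fun b _ => h0 b) (mem_univ a)
  have hne : K.Nonempty := by
    obtain ⟨a0, ha0⟩ := hA
    refine ⟨Pi.single a0 m, fun a => ?_, fun a ha => ?_, ?_⟩
    · by_cases h : a = a0
      · rw [h, Pi.single_eq_same]; exact hm.le
      · rw [Pi.single_eq_of_ne h]
    · have h : a ≠ a0 := fun h => ha (h ▸ ha0)
      rw [Pi.single_eq_of_ne h]
    · rw [sum_pi_single']
      exact if_pos (mem_univ _)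
  have hcont : ContinuousOn (fun J : ZMod p → ℝ => V (I0 + J)) K :=
    (continuous_V.comp (continuous_const.add continuous_id)).continuousOn
  obtain ⟨J, hJ, hmin⟩ := hcompact.exists_isMinOn hne hcont
  refine ⟨J, hJ, fun J' h0 h1 h2 => ?_⟩
  exact hmin (show J' ∈ K from ⟨h0, h1, h2⟩)

theorem exists_min (A : Finset (ZMod p)) (hA : A.Nonempty) (I0 : ZMod p → ℝ) (m : ℝ) (hm : 0 < m) :
    ∃ J : ZMod p → ℝ, (∀ a, 0 ≤ J a) ∧ (∀ a, a ∉ A → J a = 0) ∧ ∑ a, J a = m ∧
      ∃ L : ℝ, (∀ a ∈ A, Ex (I0 + J) (u a) ≤ L) ∧ (∀ a, 0 < J a → Ex (I0 + J) (u a) = L) ∧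
        ∀ J' : ZMod p → ℝ, (∀ a, 0 ≤ J' a) → (∀ a, a ∉ A → J' a = 0) → ∑ a, J' a = m →
          V (I0 + J) ≤ V (I0 + J') := by
  obtain ⟨J, ⟨h0, h1, h2⟩, hmin⟩ := exists_minimiser A hA I0 m hm
  obtain ⟨b, hb, hbmax⟩ := exists_max_image A (fun a => Ex (I0 + J) (u a)) hA
  refine ⟨J, h0, h1, h2, Ex (I0 + J) (u b), hbmax, fun a ha => ?_, hmin⟩
  have haA : a ∈ A := by
    by_contra h
    rw [h1 a h] at ha
    exact lt_irrefl _ ha
  refine le_antisymm (hbmax a haA) ?_
  by_cases hab : a = b
  · rw [hab]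
  -- move mass `t` from `a` to `b`
  let Jt : ℝ → ZMod p → ℝ := fun t => J - Pi.single a t + Pi.single b t
  have hJt : ∀ t, 0 < t → t ≤ J a →
      Ex (I0 + Jt t) (u b) ≤ Ex (I0 + Jt t) (u a) := by
    intro t ht ht'
    have hval : ∀ c, Jt t c = J c - (if c = a then t else 0) + (if c = b then t else 0) := by
      intro c
      show J c - (Pi.single a t : ZMod p → ℝ) c + (Pi.single b t : ZMod p → ℝ) c = _
      rw [Pi.single_apply, Pi.single_apply]
    have hm' : V (I0 + J) ≤ V (I0 + Jt t) := by
      refine hmin _ (fun c => ?_) (fun c hc => ?_) ?_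
      · rw [hval]
        by_cases hca : c = a
        · rw [if_pos hca, if_neg (fun h => hab (hca.symm.trans h)), hca]
          linarith
        · rw [if_neg hca]
          have := h0 c
          split_ifs <;> linarith
      · have n1 : ¬ c = a := fun h => hc (by rw [h]; exact haA)
        have n2 : ¬ c = b := fun h => hc (by rw [h]; exact hb)
        rw [hval, if_neg n1, if_neg n2, h1 c hc]
        norm_num
      · simp only [hval]
        rw [sum_add_distrib, sum_sub_distrib, sum_ite_eq' univ a, sum_ite_eq' univ b,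
          if_pos (mem_univ _), if_pos (mem_univ _), h2]
        ring
    have h3 := V_ge (I0 + Jt t) (I0 + J)
    have h4 : ∑ c, ((I0 + Jt t) c - (I0 + J) c) * Ex (I0 + Jt t) (u c) =
        t * (Ex (I0 + Jt t) (u b) - Ex (I0 + Jt t) (u a)) := by
      have h5 : ∀ c, ((I0 + Jt t) c - (I0 + J) c) * Ex (I0 + Jt t) (u c) =
          (if c = b then t * Ex (I0 + Jt t) (u c) else 0) -
            (if c = a then t * Ex (I0 + Jt t) (u c) else 0) := by
        intro c
        show ((I0 c + Jt t c) - (I0 c + J c)) * _ = _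
        rw [hval]
        split_ifs <;> ring
      simp only [h5]
      rw [sum_sub_distrib, sum_ite_eq' univ b, sum_ite_eq' univ a, if_pos (mem_univ _),
        if_pos (mem_univ _)]
      ring
    rw [h4] at h3
    by_contra hcon
    push Not at hcon
    have := mul_pos ht (sub_pos.mpr hcon)
    linarith
  -- let `t → 0`
  have hc : Continuous fun t : ℝ => I0 + Jt t := by
    have e0 : ∀ c : ZMod p, Continuous fun t : ℝ => (Pi.single c t : ZMod p → ℝ) := by
      intro c
      refine continuous_pi fun i => ?_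
      by_cases h : i = c
      · subst h
        simp only [Pi.single_eq_same]
        exact continuous_id
      · simp only [Pi.single_eq_of_ne h]
        exact continuous_const
    have e1 := e0 a
    have e2 := e0 b
    exact continuous_const.add ((continuous_const.sub e1).add e2)
  have hJ0 : I0 + Jt 0 = I0 + J := by
    show I0 + (J - Pi.single a 0 + Pi.single b 0) = I0 + J
    rw [Pi.single_zero, Pi.single_zero, sub_zero, add_zero]
  have ca : Continuous fun t : ℝ => Ex (I0 + Jt t) (u a) := (continuous_Ex (u a)).comp hc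
  have cb : Continuous fun t : ℝ => Ex (I0 + Jt t) (u b) := (continuous_Ex (u b)).comp hc
  have la := ca.tendsto 0
  have lb := cb.tendsto 0
  rw [hJ0] at la lb
  have la' := la.mono_left (nhdsWithin_le_nhds (s := Set.Ioi (0 : ℝ)))
  have lb' := lb.mono_left (nhdsWithin_le_nhds (s := Set.Ioi (0 : ℝ)))
  refine le_of_tendsto_of_tendsto lb' la' ?_
  have hev : ∀ᶠ t in nhdsWithin (0 : ℝ) (Set.Ioi 0), t ∈ Set.Ioc 0 (J a) :=
    Ioc_mem_nhdsGT ha
  filter_upwards [hev] with t ht
  exact hJt t ht.1 ht.2

end Pool.MPbe0380.Gb
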